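import Pool.Agent.Helper72.BB.Stubs

/-!
# MP_3dd6d4_an, stage 2, module R3: majorants
-/

set_option autoImplicit false

open MeasureTheory Complex FourierTransform Filter Topology
open scoped ENNReal NNReal ComplexConjugate ContDiff SchwartzMap LineDeriv

noncomputable section

namespace Helper72.BB.P.R3x

open Helper72.BA Helper72.BB

/-! ### Schwartz decay -/

theorem decay12 (s : SchwartzMap ℂ ℂ) : ∃ C : ℝ, 0 < C ∧ ∀ w : ℂ,
    (1 + ‖w‖ ^ 2) ^ 12 * ‖s w‖ ≤ C ∧ (1 + ‖w‖ ^ 2) ^ 12 * ‖fderiv ℝ s w‖ ≤ C := by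
  obtain ⟨C0, h0, hC0⟩ := s.decay 0 0
  obtain ⟨C1, h1, hC1⟩ := s.decay 24 0
  obtain ⟨D0, d0, hD0⟩ := s.decay 0 1
  obtain ⟨D1, d1, hD1⟩ := s.decay 24 1
  have key : ∀ t : ℝ, (1 + t ^ 2) ^ 12 ≤ 2 ^ 11 * (1 + t ^ 24) := by
    intro t
    have := add_pow_le (zero_le_one) (sq_nonneg t) 12
    rw [one_pow, ← pow_mul] at this
    exact this
  refine ⟨2 ^ 11 * (C0 + C1 + D0 + D1), by positivity, fun w => ?_⟩
  have a0 := hC0 w
  have a1 := hC1 w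
  have b0 := hD0 w
  have b1 := hD1 w
  rw [norm_iteratedFDeriv_zero] at a0 a1
  rw [norm_iteratedFDeriv_one] at b0 b1
  rw [pow_zero, one_mul] at a0 b0
  have k := key ‖w‖
  constructor
  · have := mul_le_mul_of_nonneg_right k (norm_nonneg (s w))
    refine this.trans ?_
    nlinarith
  · have := mul_le_mul_of_nonneg_right k (norm_nonneg (fderiv ℝ s w))
    refine this.trans ?_
    nlinarith

/-! ### dilations -/

/-- the dilation as an equivalence -/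
def dilE (j : ℤ) : ℂ ≃L[ℝ] ℂ :=
  (LinearEquiv.smulOfNeZero ℝ ℂ ((2:ℝ) ^ j) (by positivity)).toContinuousLinearEquiv

theorem dilE_apply (j : ℤ) (z : ℂ) : dilE j z = (2:ℝ) ^ j • z := rfl

/-- normalized dilation of a Schwartz function -/
def dil (j : ℤ) (s : SchwartzMap ℂ ℂ) : SchwartzMap ℂ ℂ :=
  ((2:ℂ) ^ (2 * j)) • SchwartzMap.compCLMOfContinuousLinearEquiv ℂ (dilE j) s

theorem two_smul' (j : ℤ) (z : ℂ) : (2:ℝ) ^ j • z = (2:ℂ) ^ j * z := by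
  rw [real_smul]; push_cast; rfl

theorem dil_apply (j : ℤ) (s : SchwartzMap ℂ ℂ) (z : ℂ) :
    dil j s z = (2:ℂ) ^ (2 * j) * s ((2:ℂ) ^ j * z) := by
  unfold dil
  rw [_root_.smul_apply, SchwartzMap.compCLMOfContinuousLinearEquiv_apply, Function.comp_apply,
    dilE_apply, two_smul', smul_eq_mul]

theorem dil_add (j : ℤ) (s t : SchwartzMap ℂ ℂ) : dil j (s + t) = dil j s + dil j t := by
  unfold dil
  rw [map_add, smul_add]

theorem dil_fderiv (j : ℤ) (s : SchwartzMap ℂ ℂ) (z v : ℂ) :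
    fderiv ℝ (dil j s) z v = (2:ℂ) ^ (2 * j) * ((2:ℂ) ^ j * fderiv ℝ s ((2:ℂ) ^ j * z) v) := by
  have h1 : HasFDerivAt (fun z : ℂ => (2:ℝ) ^ j • z) ((2:ℝ) ^ j • ContinuousLinearMap.id ℝ ℂ) z :=
    ((2:ℝ) ^ j • ContinuousLinearMap.id ℝ ℂ).hasFDerivAt
  have h2 : HasFDerivAt (s : ℂ → ℂ) (fderiv ℝ s ((2:ℝ) ^ j • z)) ((2:ℝ) ^ j • z) :=
    s.differentiable.differentiableAt.hasFDerivAt
  have h3 := (h2.comp z h1).const_mul ((2:ℂ) ^ (2 * j))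
  have h4 : (dil j s : ℂ → ℂ) = fun y => (2:ℂ) ^ (2 * j) * ((s : ℂ → ℂ) ∘ fun z : ℂ => (2:ℝ) ^ j • z) y := by
    ext y
    rw [dil_apply, Function.comp_apply, two_smul']
  rw [h4, h3.fderiv]
  simp only [_root_.smul_apply, ContinuousLinearMap.comp_apply,
    ContinuousLinearMap.id_apply, smul_eq_mul, map_smul]
  rw [two_smul', real_smul]
  push_cast
  rfl

theorem norm_two_zpow (j : ℤ) : ‖(2:ℂ) ^ j‖ = (2:ℝ) ^ j := by
  rw [norm_zpow]; norm_num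

theorem gamN_eq (j : ℤ) (z : ℂ) : gamN ((2:ℝ) ^ (-j)) z
    = (2:ℝ) ^ (2 * j) * ((1 + ‖(2:ℂ) ^ j * z‖ ^ 2) ^ 12)⁻¹ := by
  unfold gamN
  have e1 : (((2:ℝ) ^ (-j)) ^ 2)⁻¹ = (2:ℝ) ^ (2 * j) := by
    rw [← zpow_natCast, ← zpow_mul, ← zpow_neg]
    congr 1
    push_cast
    ring
  have e2 : ‖z‖ ^ 2 / ((2:ℝ) ^ (-j)) ^ 2 = ‖(2:ℂ) ^ j * z‖ ^ 2 := by
    rw [norm_mul, norm_two_zpow, zpow_neg, inv_pow, div_inv_eq_mul, mul_pow, mul_comm]
  rw [e1, e2]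

/-- bounds of the dilated kernels -/
theorem dil_bound (s : SchwartzMap ℂ ℂ) : ∃ C : ℝ, 0 < C ∧ ∀ (j : ℤ) (z : ℂ),
    ‖dil j s z‖ ≤ C * gamN ((2:ℝ) ^ (-j)) z ∧
    ∀ v : ℂ, ‖fderiv ℝ (dil j s) z v‖ ≤ (C * (2:ℝ) ^ j * ‖v‖) * gamN ((2:ℝ) ^ (-j)) z := by
  obtain ⟨C, hC, h⟩ := decay12 s
  refine ⟨C, hC, fun j z => ?_⟩
  obtain ⟨h1, h2⟩ := h ((2:ℂ) ^ j * z)
  rw [gamN_eq]
  set P := (1 + ‖(2:ℂ) ^ j * z‖ ^ 2) ^ 12 with hP
  have hP0 : 0 < P := by positivity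
  have h1' : ‖s ((2:ℂ) ^ j * z)‖ ≤ C * P⁻¹ := by
    rw [← div_eq_mul_inv, le_div_iff₀ hP0, mul_comm]; exact h1
  have h2' : ‖fderiv ℝ s ((2:ℂ) ^ j * z)‖ ≤ C * P⁻¹ := by
    rw [← div_eq_mul_inv, le_div_iff₀ hP0, mul_comm]; exact h2
  refine ⟨?_, fun v => ?_⟩
  · rw [dil_apply, norm_mul, norm_two_zpow]
    calc (2:ℝ) ^ (2 * j) * ‖s ((2:ℂ) ^ j * z)‖ ≤ (2:ℝ) ^ (2 * j) * (C * P⁻¹) :=
          mul_le_mul_of_nonneg_left h1' (by positivity)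
      _ = _ := by ring
  · rw [dil_fderiv, norm_mul, norm_mul, norm_two_zpow, norm_two_zpow]
    have h3 : ‖fderiv ℝ s ((2:ℂ) ^ j * z) v‖ ≤ (C * P⁻¹) * ‖v‖ :=
      (ContinuousLinearMap.le_opNorm _ _).trans (mul_le_mul_of_nonneg_right h2' (norm_nonneg _))
    calc (2:ℝ) ^ (2 * j) * ((2:ℝ) ^ j * ‖fderiv ℝ s ((2:ℂ) ^ j * z) v‖)
        ≤ (2:ℝ) ^ (2 * j) * ((2:ℝ) ^ j * ((C * P⁻¹) * ‖v‖)) := by gcongr
      _ = _ := by ring

/-! ### the weight -/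

theorem gamN_nonneg (ρ : ℝ) (z : ℂ) : 0 ≤ gamN ρ z := by unfold gamN; positivity

theorem gamN_cont {ρ : ℝ} (hρ : 0 < ρ) : Continuous (gamN ρ) := by
  unfold gamN
  refine continuous_const.mul (Continuous.inv₀ (by fun_prop) fun z => ?_)
  positivity

theorem gamN_one_int : Integrable (gamN 1) := by
  have h := integrable_rpow_neg_one_add_norm_sq (E := ℂ) (μ := volume) (r := 24) (by
    rw [Complex.finrank_real_complex]; norm_num)
  refine h.congr (Filter.Eventually.of_forall fun z => ?_)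
  simp only [gamN]
  have : (0:ℝ) < 1 + ‖z‖ ^ 2 := by positivity
  rw [show (-(24:ℝ)/2) = -(12:ℕ) by norm_num, Real.rpow_neg this.le, Real.rpow_natCast]
  simp

theorem gamN_scale {ρ : ℝ} (hρ : 0 < ρ) (z : ℂ) : gamN ρ z = (ρ ^ 2)⁻¹ * gamN 1 (ρ⁻¹ • z) := by
  unfold gamN
  rw [norm_smul, Real.norm_eq_abs, abs_of_pos (by positivity)]
  simp only [one_pow, inv_one, one_mul, div_one]
  congr 4
  field_simp

theorem gamN_int {ρ : ℝ} (hρ : 0 < ρ) : Integrable (gamN ρ) := by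
  have h : Integrable (fun z : ℂ => (ρ ^ 2)⁻¹ * gamN 1 (ρ⁻¹ • z)) :=
    (gamN_one_int.comp_smul (inv_ne_zero hρ.ne')).const_mul _
  exact h.congr (Filter.Eventually.of_forall fun z => (gamN_scale hρ z).symm)

/-- total mass -/
def M0 : ℝ := ∫ z, gamN 1 z

theorem M0_nonneg : 0 ≤ M0 := integral_nonneg (gamN_nonneg 1)

theorem gamN_integral {ρ : ℝ} (hρ : 0 < ρ) : ∫ z, gamN ρ z = M0 := by
  have : ∀ z, gamN ρ z = (ρ ^ 2)⁻¹ * gamN 1 (ρ⁻¹ • z) := gamN_scale hρ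
  simp only [this]
  rw [integral_const_mul, Measure.integral_comp_inv_smul_of_nonneg _ _ hρ.le,
    Complex.finrank_real_complex, smul_eq_mul, ← mul_assoc, inv_mul_cancel₀ (by positivity), one_mul]
  rfl

theorem lint_gamN {ρ : ℝ} (hρ : 0 < ρ) (z : ℂ) :
    ∫⁻ w, ENNReal.ofReal (gamN ρ (z - w)) = ENNReal.ofReal M0 := by
  rw [lintegral_sub_left_eq_self (fun w => ENNReal.ofReal (gamN ρ w)) z,
    ← ofReal_integral_eq_lintegral_ofReal (gamN_int hρ)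
      (Filter.Eventually.of_forall (gamN_nonneg ρ)), gamN_integral hρ]

/-- Cauchy-Schwarz -/
theorem cs_gamN {ρ : ℝ} (hρ : 0 < ρ) (h : ℂ → ℝ≥0∞) (hm : Measurable h) (z : ℂ) :
    (∫⁻ w, ENNReal.ofReal (gamN ρ (z - w)) * h w) ^ 2
      ≤ ENNReal.ofReal M0 * ∫⁻ w, ENNReal.ofReal (gamN ρ (z - w)) * h w ^ 2 := by
  have hg : Measurable fun w : ℂ => ENNReal.ofReal (gamN ρ (z - w)) :=
    ENNReal.measurable_ofReal.comp ((gamN_cont hρ).measurable.comp (measurable_const.sub measurable_id))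
  have H := ENNReal.lintegral_mul_le_Lp_mul_Lq (volume : Measure ℂ) Real.HolderConjugate.two_two
    (f := fun w => (ENNReal.ofReal (gamN ρ (z - w))) ^ (1/2 : ℝ))
    (g := fun w => (ENNReal.ofReal (gamN ρ (z - w))) ^ (1/2 : ℝ) * h w)
    (hg.pow_const _).aemeasurable ((hg.pow_const _).mul hm).aemeasurable
  have e0 : ∀ x : ℝ≥0∞, x ^ (1/2 : ℝ) * x ^ (1/2 : ℝ) = x := by
    intro x
    rw [← ENNReal.rpow_add_of_nonneg _ _ (by norm_num) (by norm_num)]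
    norm_num
  have e1 : ∀ x : ℝ≥0∞, (x ^ (1/2 : ℝ)) ^ (2:ℝ) = x := by
    intro x
    rw [← ENNReal.rpow_mul]; norm_num
  have e2 : ∀ x : ℝ≥0∞, x ^ (2:ℝ) = x ^ 2 := fun x => by
    rw [show (2:ℝ) = ((2:ℕ) : ℝ) by norm_num, ENNReal.rpow_natCast]
  have l1 : ∫⁻ w, ((fun w => (ENNReal.ofReal (gamN ρ (z - w))) ^ (1/2 : ℝ)) *
      (fun w => (ENNReal.ofReal (gamN ρ (z - w))) ^ (1/2 : ℝ) * h w)) w
      = ∫⁻ w, ENNReal.ofReal (gamN ρ (z - w)) * h w := by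
    refine lintegral_congr fun w => ?_
    simp only [Pi.mul_apply]
    rw [← mul_assoc, e0]
  have l2 : ∫⁻ w, (ENNReal.ofReal (gamN ρ (z - w)) ^ (1/2 : ℝ)) ^ (2:ℝ)
      = ENNReal.ofReal M0 := by
    rw [← lint_gamN hρ z]
    exact lintegral_congr fun w => e1 _
  have l3 : ∫⁻ w, (ENNReal.ofReal (gamN ρ (z - w)) ^ (1/2 : ℝ) * h w) ^ (2:ℝ)
      = ∫⁻ w, ENNReal.ofReal (gamN ρ (z - w)) * h w ^ 2 := by
    refine lintegral_congr fun w => ?_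
    rw [ENNReal.mul_rpow_of_nonneg _ _ (by norm_num), e1, e2]
  rw [l1, l2, l3] at H
  have H2 := pow_le_pow_left' H 2
  refine H2.trans (le_of_eq ?_)
  rw [mul_pow, ← e2, ← e2, ← ENNReal.rpow_mul, ← ENNReal.rpow_mul]
  norm_num

/-! ### convolutions -/

/-- integrand integrable -/
theorem ker_integrable {K f : ℂ → ℂ} (hK : Ker K) (hf : Nice f) (z : ℂ) :
    Integrable (fun w => K (z - w) * f w) := by
  obtain ⟨s, rfl⟩ := hK
  obtain ⟨C, hC⟩ := s.decay 0 0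
  refine hf.int.bdd_mul (c := C) ?_ ?_
  · exact (s.continuous.comp (by fun_prop)).aestronglyMeasurable
  · exact ae_of_all _ fun w => by simpa using hC.2 (z - w)

theorem hasFDerivAt_cv (s : SchwartzMap ℂ ℂ) {f : ℂ → ℂ} (hf : Nice f) (z : ℂ) :
    Integrable (fun w => f w • fderiv ℝ s (z - w)) ∧
    HasFDerivAt (cv s f) (∫ w, f w • fderiv ℝ s (z - w)) z := by
  obtain ⟨D, hD⟩ := s.decay 0 1
  have hD' : ∀ u, ‖fderiv ℝ s u‖ ≤ D := by
    intro u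
    have := hD.2 u
    rwa [pow_zero, one_mul, norm_iteratedFDeriv_one] at this
  have hcont : Continuous (fderiv ℝ s) := (s.smooth 1).continuous_fderiv (by norm_num)
  have hmeas : ∀ z, AEStronglyMeasurable (fun w => f w • fderiv ℝ s (z - w)) volume := by
    intro z
    exact hf.meas.aestronglyMeasurable.smul (hcont.comp (by fun_prop)).aestronglyMeasurable
  have hbd : ∀ z w, ‖f w • fderiv ℝ s (z - w)‖ ≤ D * ‖f w‖ := by
    intro z w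
    rw [norm_smul, mul_comm]
    exact mul_le_mul_of_nonneg_right (hD' _) (norm_nonneg _)
  refine ⟨(hf.int.norm.const_mul D).mono' (hmeas z) (ae_of_all _ (hbd z)), ?_⟩
  refine hasFDerivAt_integral_of_dominated_of_fderiv_le (s := Set.univ)
    (F := fun x w => s (x - w) * f w) (F' := fun x w => f w • fderiv ℝ s (x - w))
    (bound := fun w => D * ‖f w‖) Filter.univ_mem ?_ ?_ (hmeas z) ?_ (hf.int.norm.const_mul D) ?_
  · exact Filter.Eventually.of_forall fun x => (ker_integrable ⟨s, rfl⟩ hf x).aestronglyMeasurable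
  · exact ker_integrable ⟨s, rfl⟩ hf z
  · exact ae_of_all _ fun w x _ => hbd x w
  · refine ae_of_all _ fun w x _ => ?_
    have h1 : HasFDerivAt (fun x : ℂ => x - w) (ContinuousLinearMap.id ℝ ℂ) x :=
      (hasFDerivAt_id x).sub_const w
    have h2 : HasFDerivAt (s : ℂ → ℂ) (fderiv ℝ s (x - w)) (x - w) :=
      s.differentiable.differentiableAt.hasFDerivAt
    have h3 := (h2.comp x h1).mul_const (f w)
    rw [ContinuousLinearMap.comp_id] at h3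
    exact h3

theorem differentiable_cv (s : SchwartzMap ℂ ℂ) {f : ℂ → ℂ} (hf : Nice f) :
    Differentiable ℝ (cv s f) := fun z => (hasFDerivAt_cv s hf z).2.differentiableAt

/-- directional derivative of a convolution -/
theorem fderiv_cv_apply (s : SchwartzMap ℂ ℂ) {f : ℂ → ℂ} (hf : Nice f) (z v : ℂ) :
    fderiv ℝ (cv s f) z v = cv (∂_{v} s : SchwartzMap ℂ ℂ) f z := by
  obtain ⟨h1, h2⟩ := hasFDerivAt_cv s hf z
  rw [h2.fderiv, ContinuousLinearMap.integral_apply h1]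
  unfold cv
  refine integral_congr_ae (ae_of_all _ fun w => ?_)
  simp only [_root_.smul_apply, smul_eq_mul]
  rw [SchwartzMap.lineDerivOp_apply_eq_fderiv, mul_comm]

theorem norm_clm_le (L : ℂ →L[ℝ] ℂ) : ‖L‖ ≤ ‖L 1‖ + ‖L I‖ := by
  refine L.opNorm_le_bound (by positivity) fun z => ?_
  have e : L z = z.re • L 1 + z.im • L I := by
    rw [← map_smul, ← map_smul, ← map_add]
    congr 1
    apply Complex.ext <;> simp
  rw [e]
  refine (norm_add_le _ _).trans ?_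
  rw [norm_smul, norm_smul, Real.norm_eq_abs, Real.norm_eq_abs]
  have h1 := Complex.abs_re_le_norm z
  have h2 := Complex.abs_im_le_norm z
  nlinarith [norm_nonneg (L 1), norm_nonneg (L I), abs_nonneg z.re, abs_nonneg z.im]

theorem nice_dcv (s : SchwartzMap ℂ ℂ) {f : ℂ → ℂ} (hf : Nice f) :
    Integrable (fderiv ℝ (cv s f)) ∧ ∃ D : ℝ, ∀ z, ‖fderiv ℝ (cv s f) z‖ ≤ D := by
  have n1 : Nice (cv (∂_{(1:ℂ)} s : SchwartzMap ℂ ℂ) f) := nice_cv ⟨_, rfl⟩ hf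
  have n2 : Nice (cv (∂_{I} s : SchwartzMap ℂ ℂ) f) := nice_cv ⟨_, rfl⟩ hf
  have hb : ∀ z, ‖fderiv ℝ (cv s f) z‖ ≤ ‖cv (∂_{(1:ℂ)} s : SchwartzMap ℂ ℂ) f z‖
      + ‖cv (∂_{I} s : SchwartzMap ℂ ℂ) f z‖ := by
    intro z
    rw [← fderiv_cv_apply, ← fderiv_cv_apply]
    · exact norm_clm_le _
    · exact hf
    · exact hf
  refine ⟨(n1.int.norm.add n2.int.norm).mono' ?_ (ae_of_all _ fun z => hb z), ?_⟩
  · exact (measurable_fderiv ℝ (cv s f)).aestronglyMeasurable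
  · obtain ⟨C1, h1⟩ := n1.bdd
    obtain ⟨C2, h2⟩ := n2.bdd
    exact ⟨C1 + C2, fun z => (hb z).trans (add_le_add (h1 z) (h2 z))⟩

/-- convolution with a kernel dominated by the weight -/
theorem cv_dom {K : ℂ → ℂ} {C ρ : ℝ} (hC : 0 ≤ C) (hρ : 0 < ρ) (hK : ∀ u, ‖K u‖ ≤ C * gamN ρ u)
    {g : ℂ → ℂ} (hg : Nice g) (z : ℂ) :
    ‖cv K g z‖ₑ ^ 2 ≤ ENNReal.ofReal (C ^ 2 * M0) *
      ∫⁻ w, ENNReal.ofReal (gamN ρ (z - w)) * ‖g w‖ₑ ^ 2 := by
  have h1 : ‖cv K g z‖ₑ ≤ ENNReal.ofReal C * ∫⁻ w, ENNReal.ofReal (gamN ρ (z - w)) * ‖g w‖ₑ := by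
    unfold cv
    refine (enorm_integral_le_lintegral_enorm _).trans ?_
    rw [← lintegral_const_mul' _ _ ENNReal.ofReal_ne_top]
    refine lintegral_mono fun w => ?_
    rw [enorm_mul, ← mul_assoc]
    gcongr
    rw [← ENNReal.ofReal_mul hC, ← ofReal_norm]
    exact ENNReal.ofReal_le_ofReal (hK _)
  refine (pow_le_pow_left' h1 2).trans ?_
  rw [mul_pow, ENNReal.ofReal_mul (by positivity), ENNReal.ofReal_pow hC, mul_assoc]
  gcongr
  exact cs_gamN hρ (fun w => ‖g w‖ₑ) hg.meas.enorm z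

/-! ### the reproducing kernel and its antiderivatives -/

/-- the reproducing symbol -/
def ThS : SchwartzMap ℂ ℂ := P.PsiS 1 - P.PsiS (-2)

theorem ThS_apply (ξ : ℂ) : ThS ξ = (Psi 1 ξ : ℂ) - (Psi (-2) ξ : ℂ) := by
  unfold ThS
  rw [_root_.sub_apply]
  rfl

theorem ThS_zero {ξ : ℂ} (h : ‖ξ‖ ≤ (2:ℝ) ^ (-2 : ℤ)) : ThS ξ = 0 := by
  rw [ThS_apply, Psi_eq_one h, Psi_eq_one (h.trans (zpow_le_zpow_right₀ (by norm_num) (by norm_num))),
    sub_self]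

/-- symbol of the antiderivatives, `a` is the real or imaginary part -/
def sym (a : ℂ → ℝ) (ξ : ℂ) : ℂ := ((a ξ : ℂ) / (2 * Real.pi * I * ((‖ξ‖ ^ 2 : ℝ) : ℂ))) * ThS ξ

theorem sym_smooth {a : ℂ → ℝ} (ha : ContDiff ℝ ∞ a) : ContDiff ℝ ∞ (sym a) := by
  rw [contDiff_iff_contDiffAt]
  intro ξ
  by_cases h : ξ = 0
  · subst h
    have h1 : sym a =ᶠ[𝓝 0] fun _ => 0 := by
      filter_upwards [Metric.ball_mem_nhds (0 : ℂ) (show (0:ℝ) < 2 ^ (-2 : ℤ) by positivity)]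
        with x hx
      rw [mem_ball_zero_iff] at hx
      unfold sym
      rw [ThS_zero hx.le, mul_zero]
    exact contDiffAt_const.congr_of_eventuallyEq h1
  · unfold sym
    refine ContDiffAt.mul ?_ (ThS.smooth ⊤).contDiffAt
    simp only [div_eq_mul_inv]
    refine ContDiffAt.mul (ofRealCLM.contDiff.comp ha).contDiffAt (ContDiffAt.inv ?_ ?_)
    · refine contDiffAt_const.mul ?_
      exact (ofRealCLM.contDiff.comp (contDiff_norm_sq ℝ)).contDiffAt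
    · have h1 : ((‖ξ‖ ^ 2 : ℝ) : ℂ) ≠ 0 := by
        rw [ofReal_ne_zero]
        have := norm_pos_iff.2 h
        positivity
      have h2 : (2 * Real.pi * I : ℂ) ≠ 0 := by
        simp [Real.pi_ne_zero]
      exact mul_ne_zero h2 h1

theorem sym_supp (a : ℂ → ℝ) : HasCompactSupport (sym a) := by
  apply HasCompactSupport.of_support_subset_isCompact (isCompact_closedBall (0 : ℂ) ((2:ℝ) ^ (2:ℤ)))
  intro ξ hξ
  rw [mem_closedBall_zero_iff]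
  by_contra h
  apply hξ
  unfold sym
  rw [ThS_apply, Psi_eq_zero (i := 1) (not_le.mp h).le, Psi_eq_zero (i := -2)
    ((zpow_le_zpow_right₀ (by norm_num) (by norm_num)).trans (not_le.mp h).le)]
  simp

/-- the symbol as a Schwartz function -/
def symS (a : ℂ → ℝ) (ha : ContDiff ℝ ∞ a) : SchwartzMap ℂ ℂ :=
  (sym_supp a).toSchwartzMap (sym_smooth ha)

theorem symS_coe (a : ℂ → ℝ) (ha : ContDiff ℝ ∞ a) : (symS a ha : ℂ → ℂ) = sym a := rfl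

theorem re_smooth : ContDiff ℝ ∞ Complex.re := reCLM.contDiff

theorem im_smooth : ContDiff ℝ ∞ Complex.im := imCLM.contDiff

/-- reproducing kernel of level 0 -/
def s0 : SchwartzMap ℂ ℂ := 𝓕⁻ ThS

/-- antiderivatives -/
def s1 : SchwartzMap ℂ ℂ := 𝓕⁻ (symS Complex.re re_smooth)

/-- antiderivatives -/
def s2 : SchwartzMap ℂ ℂ := 𝓕⁻ (symS Complex.im im_smooth)

theorem div_s : (∂_{(1:ℂ)} s1 : SchwartzMap ℂ ℂ) + (∂_{I} s2 : SchwartzMap ℂ ℂ) = s0 := by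
  unfold s1 s2 s0
  rw [SchwartzMap.lineDerivOp_fourierInv_eq, SchwartzMap.lineDerivOp_fourierInv_eq,
    ← FourierTransform.fourierInv_add]
  congr 1
  ext ξ
  have ht : ∀ m : ℂ, (fun z : ℂ => inner ℝ z m).HasTemperateGrowth := fun m =>
    ((innerSL ℝ).flip m).hasTemperateGrowth
  rw [_root_.add_apply, _root_.smul_apply, _root_.smul_apply,
    SchwartzMap.smulLeftCLM_apply_apply (F := ℂ) (ht 1),
    SchwartzMap.smulLeftCLM_apply_apply (F := ℂ) (ht I), symS_coe, symS_coe]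
  have e1 : inner ℝ ξ (1:ℂ) = ξ.re := by simp [Complex.inner]
  have e2 : inner ℝ ξ I = ξ.im := by simp [Complex.inner]
  rw [e1, e2]
  unfold sym
  by_cases h : ξ = 0
  · have : ThS ξ = 0 := ThS_zero (by rw [h, norm_zero]; positivity)
    rw [this]; simp
  · have h1 : ((‖ξ‖ ^ 2 : ℝ) : ℂ) ≠ 0 := by
      rw [ofReal_ne_zero]
      have := norm_pos_iff.2 h
      positivity
    have h2 : (2 * Real.pi * I : ℂ) ≠ 0 := by
      simp [Real.pi_ne_zero]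
    have h3 : ((‖ξ‖ ^ 2 : ℝ) : ℂ) = (ξ.re : ℂ) * ξ.re + (ξ.im : ℂ) * ξ.im := by
      rw [Complex.sq_norm, Complex.normSq_apply]; push_cast; rfl
    simp only [smul_eq_mul, real_smul]
    have e3 : 2 * (Real.pi : ℂ) * I * ((ξ.re : ℂ) * (((ξ.re : ℂ)
        / (2 * Real.pi * I * ((‖ξ‖ ^ 2 : ℝ) : ℂ))) * ThS ξ))
        + 2 * (Real.pi : ℂ) * I * ((ξ.im : ℂ) * (((ξ.im : ℂ)
        / (2 * Real.pi * I * ((‖ξ‖ ^ 2 : ℝ) : ℂ))) * ThS ξ))
        = (2 * Real.pi * I : ℂ) * ((ξ.re : ℂ) * ξ.re + (ξ.im : ℂ) * ξ.im)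
          / (2 * Real.pi * I * ((‖ξ‖ ^ 2 : ℝ) : ℂ)) * ThS ξ := by ring
    rw [e3, ← h3, div_self (mul_ne_zero h2 h1), one_mul]

theorem s0_apply (z : ℂ) : s0 z = kap 1 z - kap (-2) z := by
  unfold s0 ThS
  rw [P.kap_eq, P.kap_eq, sub_eq_add_neg, FourierTransform.fourierInv_add]
  rw [FourierTransform.fourierInv_neg]
  rfl

theorem kap_shift (i j : ℤ) (z : ℂ) : kap (i + j) z = (2:ℂ) ^ (2 * j) * kap i ((2:ℂ) ^ j * z) := by
  rw [P.kap_scale (i + j), P.kap_scale i, ← mul_assoc, ← mul_assoc, ← zpow_add₀ two_ne_zero,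
    ← zpow_add₀ two_ne_zero]
  congr 2
  ring

theorem dil_s0 (j : ℤ) (z : ℂ) : dil j s0 z = kap (j + 1) z - kap (j - 2) z := by
  rw [dil_apply, s0_apply, mul_sub, ← kap_shift, ← kap_shift]
  congr 2 <;> ring

theorem reprod (n : ℕ) (j : ℤ) {f : ℂ → ℂ} (hf : Nice f) :
    cv (dil j s0) (gj n j f) = gj n j f := by
  have hg := P.FL.nice_gj n j hf
  ext z
  have h1 : cv (dil j s0) (gj n j f) z = cv (kap (j + 1)) (gj n j f) z
      - cv (kap (j - 2)) (gj n j f) z := by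
    unfold cv
    rw [← integral_sub (ker_integrable (ker_kap _) hg z) (ker_integrable (ker_kap _) hg z)]
    refine integral_congr_ae (ae_of_all _ fun w => ?_)
    simp only [dil_s0]
    ring
  rw [h1, P.FL.cv_kap_eq n (by omega) hf, P.FL.cv_kap_zero n (by omega) hf, Pi.zero_apply, sub_zero]

end Helper72.BB.P.R3x

namespace Helper72.BB.P

open Helper72.BA Helper72.BB R3x

theorem majorants : ∃ C : ℝ, 0 < C ∧ ∀ (n : ℕ) (j : ℤ) (f : ℂ → ℂ), Nice f →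
    (∀ z, ‖gj n j f z‖ₑ ^ 2 ≤ ENNReal.ofReal C * hj n j f z) ∧
    Differentiable ℝ (gj n j f) ∧
    (∀ z, ‖fderiv ℝ (gj n j f) z‖ₑ ^ 2 ≤ ENNReal.ofReal (C * (2:ℝ) ^ (2 * j)) * hj n j f z) ∧
    Integrable (fderiv ℝ (gj n j f)) ∧ (∃ D : ℝ, ∀ z, ‖fderiv ℝ (gj n j f) z‖ ≤ D) ∧
    ∃ X1 X2 : ℂ → ℂ, Nice X1 ∧ Nice X2 ∧ Differentiable ℝ X1 ∧ Differentiable ℝ X2 ∧
      Integrable (fderiv ℝ X1) ∧ Integrable (fderiv ℝ X2) ∧
      (∃ D : ℝ, ∀ z, ‖fderiv ℝ X1 z‖ ≤ D ∧ ‖fderiv ℝ X2 z‖ ≤ D) ∧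
      (∀ z, ‖X1 z‖ₑ ^ 2 ≤ ENNReal.ofReal (C * (2:ℝ) ^ (-(2 * j))) * hj n j f z) ∧
      (∀ z, ‖X2 z‖ₑ ^ 2 ≤ ENNReal.ofReal (C * (2:ℝ) ^ (-(2 * j))) * hj n j f z) ∧
      ∀ z, fderiv ℝ X1 z 1 + fderiv ℝ X2 z I = gj n j f z := by
  obtain ⟨C0, hC0, hb0⟩ := dil_bound s0
  obtain ⟨C1, hC1, hb1⟩ := dil_bound s1
  obtain ⟨C2, hC2, hb2⟩ := dil_bound s2
  set Cm := max C0 (max C1 C2) with hCm
  have m0 : C0 ≤ Cm := le_max_left _ _
  have m1 : C1 ≤ Cm := (le_max_left _ _).trans (le_max_right _ _)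
  have m2 : C2 ≤ Cm := (le_max_right _ _).trans (le_max_right _ _)
  have Cm0 : 0 < Cm := hC0.trans_le m0
  have hM := M0_nonneg
  refine ⟨4 * Cm ^ 2 * M0 + 1, by positivity, fun n j f hf => ?_⟩
  set ρ := (2:ℝ) ^ (-j) with hρd
  have hρ : 0 < ρ := by positivity
  have hg : Nice (gj n j f) := P.FL.nice_gj n j hf
  set g := gj n j f with hgd
  have hrep : cv (dil j s0) g = g := reprod n j hf
  have gN0 : ∀ u, 0 ≤ gamN ρ u := gamN_nonneg ρ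
  have hjd : ∀ z, hj n j f z = ∫⁻ w, ENNReal.ofReal (gamN ρ (z - w)) * ‖g w‖ₑ ^ 2 := fun z => rfl
  -- the function itself
  have a1 : ∀ z, ‖g z‖ₑ ^ 2 ≤ ENNReal.ofReal (Cm ^ 2 * M0) * hj n j f z := by
    intro z
    have := cv_dom (K := dil j s0) Cm0.le hρ (fun u => ((hb0 j u).1).trans
      (mul_le_mul_of_nonneg_right m0 (gN0 u))) hg z
    rw [hrep] at this
    exact this
  -- directional derivatives
  have a2 : ∀ v : ℂ, ‖v‖ = 1 → ∀ z, ‖cv (∂_{v} (dil j s0) : SchwartzMap ℂ ℂ) g z‖ₑ ^ 2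
      ≤ ENNReal.ofReal ((Cm * (2:ℝ) ^ j) ^ 2 * M0) * hj n j f z := by
    intro v hv z
    refine cv_dom (by positivity) hρ (fun u => ?_) hg z
    rw [SchwartzMap.lineDerivOp_apply_eq_fderiv]
    refine ((hb0 j u).2 v).trans ?_
    rw [hv, mul_one]
    exact mul_le_mul_of_nonneg_right (mul_le_mul_of_nonneg_right m0 (by positivity)) (gN0 u)
  have hz : ((2:ℝ) ^ j) ^ 2 = (2:ℝ) ^ (2 * j) := by
    rw [← zpow_natCast, ← zpow_mul]; congr 1; push_cast; ring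
  have hz' : ((2:ℝ) ^ (-j)) ^ 2 = (2:ℝ) ^ (-(2 * j)) := by
    rw [← zpow_natCast, ← zpow_mul]; congr 1; push_cast; ring
  have hd : Differentiable ℝ g := by
    obtain ⟨s, hs⟩ := ker_KK n j
    have : g = cv s f := by rw [← hs]; rfl
    rw [this]
    exact differentiable_cv s hf
  have hdi : Integrable (fderiv ℝ g) ∧ ∃ D : ℝ, ∀ z, ‖fderiv ℝ g z‖ ≤ D := by
    have := nice_dcv (dil j s0) hg
    rw [hrep] at this
    exact this
  have a3 : ∀ z, ‖fderiv ℝ g z‖ₑ ^ 2 ≤ ENNReal.ofReal ((4 * Cm ^ 2 * M0 + 1) * (2:ℝ) ^ (2 * j))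
      * hj n j f z := by
    intro z
    have b1 : ‖fderiv ℝ g z‖ ≤ ‖cv (∂_{(1:ℂ)} (dil j s0) : SchwartzMap ℂ ℂ) g z‖
        + ‖cv (∂_{I} (dil j s0) : SchwartzMap ℂ ℂ) g z‖ := by
      have := norm_clm_le (fderiv ℝ (cv (dil j s0) g) z)
      rw [fderiv_cv_apply _ hg, fderiv_cv_apply _ hg] at this
      rwa [hrep] at this
    have b2 : ‖fderiv ℝ g z‖ₑ ≤ ‖cv (∂_{(1:ℂ)} (dil j s0) : SchwartzMap ℂ ℂ) g z‖ₑ
        + ‖cv (∂_{I} (dil j s0) : SchwartzMap ℂ ℂ) g z‖ₑ := by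
      rw [← ofReal_norm, ← ofReal_norm, ← ofReal_norm, ← ENNReal.ofReal_add (norm_nonneg _)
        (norm_nonneg _)]
      exact ENNReal.ofReal_le_ofReal b1
    have b3 : ∀ a b : ℝ≥0∞, (a + b) ^ 2 ≤ 2 * (a ^ 2 + b ^ 2) := by
      intro a b
      have := ENNReal.rpow_add_le_mul_rpow_add_rpow a b (p := 2) (by norm_num)
      have e2 : ∀ x : ℝ≥0∞, x ^ (2:ℝ) = x ^ 2 := fun x => by
        rw [show (2:ℝ) = ((2:ℕ) : ℝ) by norm_num, ENNReal.rpow_natCast]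
      rw [e2, e2, e2] at this
      norm_num at this
      exact this
    have b4 := a2 1 (by simp) z
    have b5 := a2 I (by simp) z
    calc ‖fderiv ℝ g z‖ₑ ^ 2 ≤ _ := pow_le_pow_left' b2 2
      _ ≤ _ := b3 _ _
      _ ≤ 2 * (ENNReal.ofReal ((Cm * (2:ℝ) ^ j) ^ 2 * M0) * hj n j f z
          + ENNReal.ofReal ((Cm * (2:ℝ) ^ j) ^ 2 * M0) * hj n j f z) := by gcongr
      _ = ENNReal.ofReal (4 * ((Cm * (2:ℝ) ^ j) ^ 2 * M0)) * hj n j f z := by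
          rw [ENNReal.ofReal_mul (show (0:ℝ) ≤ 4 by norm_num)]
          have : ENNReal.ofReal 4 = 4 := by norm_num
          rw [this]; ring
      _ ≤ _ := by
          refine mul_le_mul' (ENNReal.ofReal_le_ofReal ?_) le_rfl
          rw [mul_pow, hz]
          have : 0 ≤ (2:ℝ) ^ (2 * j) := by positivity
          nlinarith
  -- the vector field
  set cj : ℂ := (2:ℂ) ^ (-j) with hcj
  set t1 : SchwartzMap ℂ ℂ := cj • dil j s1 with ht1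
  set t2 : SchwartzMap ℂ ℂ := cj • dil j s2 with ht2
  have nc : ‖cj‖ = (2:ℝ) ^ (-j) := norm_two_zpow _
  have k1 : ∀ u, ‖t1 u‖ ≤ (Cm * (2:ℝ) ^ (-j)) * gamN ρ u := by
    intro u
    rw [ht1, _root_.smul_apply, smul_eq_mul, norm_mul, nc]
    calc (2:ℝ) ^ (-j) * ‖dil j s1 u‖ ≤ (2:ℝ) ^ (-j) * (Cm * gamN ρ u) := by
          refine mul_le_mul_of_nonneg_left ?_ (by positivity)
          exact ((hb1 j u).1).trans (mul_le_mul_of_nonneg_right m1 (gN0 u))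
      _ = _ := by ring
  have k2 : ∀ u, ‖t2 u‖ ≤ (Cm * (2:ℝ) ^ (-j)) * gamN ρ u := by
    intro u
    rw [ht2, _root_.smul_apply, smul_eq_mul, norm_mul, nc]
    calc (2:ℝ) ^ (-j) * ‖dil j s2 u‖ ≤ (2:ℝ) ^ (-j) * (Cm * gamN ρ u) := by
          refine mul_le_mul_of_nonneg_left ?_ (by positivity)
          exact ((hb2 j u).1).trans (mul_le_mul_of_nonneg_right m2 (gN0 u))
      _ = _ := by ring
  have hX : ∀ t : SchwartzMap ℂ ℂ, (∀ u, ‖t u‖ ≤ (Cm * (2:ℝ) ^ (-j)) * gamN ρ u) →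
      ∀ z, ‖cv t g z‖ₑ ^ 2 ≤ ENNReal.ofReal ((4 * Cm ^ 2 * M0 + 1) * (2:ℝ) ^ (-(2 * j)))
        * hj n j f z := by
    intro t ht z
    refine (cv_dom (by positivity) hρ ht hg z).trans ?_
    rw [← hjd]
    refine mul_le_mul' (ENNReal.ofReal_le_ofReal ?_) le_rfl
    rw [mul_pow, hz']
    have : 0 ≤ (2:ℝ) ^ (-(2 * j)) := by positivity
    nlinarith [mul_nonneg (mul_nonneg (sq_nonneg Cm) hM) this]
  have kdiv : ∀ u, (∂_{(1:ℂ)} t1 : SchwartzMap ℂ ℂ) u + (∂_{I} t2 : SchwartzMap ℂ ℂ) u = dil j s0 u := by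
    intro u
    have e0 : ∀ (s : SchwartzMap ℂ ℂ) (v : ℂ), (∂_{v} (cj • dil j s) : SchwartzMap ℂ ℂ) u
        = (2:ℂ) ^ (2 * j) * (∂_{v} s : SchwartzMap ℂ ℂ) ((2:ℂ) ^ j * u) := by
      intro s v
      rw [SchwartzMap.lineDerivOp_apply_eq_fderiv, SchwartzMap.lineDerivOp_apply_eq_fderiv]
      have h1 : fderiv ℝ (cj • dil j s : SchwartzMap ℂ ℂ) u = cj • fderiv ℝ (dil j s) u := by
        have : ((cj • dil j s : SchwartzMap ℂ ℂ) : ℂ → ℂ) = cj • (dil j s : ℂ → ℂ) := rfl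
        rw [this]
        exact fderiv_const_smul (dil j s).differentiable.differentiableAt cj
      rw [h1, _root_.smul_apply, dil_fderiv, smul_eq_mul]
      have h2 : cj * (2:ℂ) ^ j = 1 := by
        rw [hcj, ← zpow_add₀ two_ne_zero]; simp
      linear_combination ((2:ℂ) ^ (2 * j) * fderiv ℝ s ((2:ℂ) ^ j * u) v) * h2
    rw [ht1, ht2, e0, e0, ← mul_add, ← _root_.add_apply, div_s, dil_apply]
  refine ⟨fun z => ?_, hd, a3, hdi.1, hdi.2, cv t1 g, cv t2 g, nice_cv ⟨_, rfl⟩ hg,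
    nice_cv ⟨_, rfl⟩ hg, differentiable_cv t1 hg, differentiable_cv t2 hg, (nice_dcv t1 hg).1,
    (nice_dcv t2 hg).1, ?_, hX t1 k1, hX t2 k2, fun z => ?_⟩
  · refine (a1 z).trans ?_
    refine mul_le_mul' (ENNReal.ofReal_le_ofReal ?_) le_rfl
    nlinarith [mul_nonneg (sq_nonneg Cm) hM]
  · obtain ⟨D1, h1⟩ := (nice_dcv t1 hg).2
    obtain ⟨D2, h2⟩ := (nice_dcv t2 hg).2
    exact ⟨max D1 D2, fun z => ⟨(h1 z).trans (le_max_left _ _), (h2 z).trans (le_max_right _ _)⟩⟩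
  · rw [fderiv_cv_apply _ hg, fderiv_cv_apply _ hg]
    have e1 : cv (∂_{(1:ℂ)} t1 : SchwartzMap ℂ ℂ) g z + cv (∂_{I} t2 : SchwartzMap ℂ ℂ) g z
        = cv (dil j s0) g z := by
      unfold cv
      rw [← integral_add (ker_integrable ⟨_, rfl⟩ hg z) (ker_integrable ⟨_, rfl⟩ hg z)]
      refine integral_congr_ae (ae_of_all _ fun w => ?_)
      simp only
      rw [← add_mul, kdiv]
    rw [e1, hrep]

end Helper72.BB.P
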