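import Pool.Agent.Helper72.BB.Stubs

/-!
# MP_3dd6d4_an, stage 2, module R4: the cross term
-/

set_option autoImplicit false

open MeasureTheory Complex FourierTransform Filter Topology
open scoped ENNReal NNReal ComplexConjugate ContDiff

noncomputable section

namespace Helper72.BB.P.R4x

open Helper72.BA Helper72.BB

/-- the nonlinearity -/
def Ph (p : ℝ) (w : ℂ) : ℂ := (‖w‖ ^ (p - 2) : ℝ) • conj w

theorem Ph_norm {p : ℝ} (hp : 2 < p) (w : ℂ) : ‖Ph p w‖ = ‖w‖ ^ (p - 1) := by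
  unfold Ph
  rw [norm_smul, Real.norm_of_nonneg (Real.rpow_nonneg (norm_nonneg _) _), Complex.norm_conj]
  rcases (norm_nonneg w).eq_or_lt with h | h
  · rw [← h, Real.zero_rpow (by linarith), Real.zero_rpow (by linarith)]; ring
  · have := Real.rpow_add h (p - 2) 1
    rw [Real.rpow_one] at this
    rw [← this]; congr 1; ring

theorem Ph_deriv {p : ℝ} (hp : 2 < p) (w : ℂ) :
    ∃ L : ℂ →L[ℝ] ℂ, HasFDerivAt (Ph p) L w ∧ ‖L‖ ≤ (p - 1) * ‖w‖ ^ (p - 2) := by
  by_cases h : w = 0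
  · subst h
    refine ⟨0, ?_, by rw [norm_zero, norm_zero, Real.zero_rpow (by linarith)]; simp⟩
    rw [hasFDerivAt_iff_isLittleO_nhds_zero]
    have e0 : Ph p 0 = 0 := by simp [Ph]
    simp only [zero_add, e0, sub_zero, ContinuousLinearMap.zero_apply]
    rw [Asymptotics.isLittleO_iff]
    intro c hc
    have h1 : Tendsto (fun x : ℂ => ‖x‖ ^ (p - 2)) (𝓝 0) (𝓝 0) := by
      have : Continuous fun x : ℂ => ‖x‖ ^ (p - 2) :=
        continuous_norm.rpow_const fun x => Or.inr (by linarith)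
      have h2 := this.tendsto 0
      rwa [norm_zero, Real.zero_rpow (by linarith)] at h2
    filter_upwards [h1.eventually (gt_mem_nhds hc)] with x hx
    unfold Ph
    rw [norm_smul, Real.norm_of_nonneg (Real.rpow_nonneg (norm_nonneg _) _), Complex.norm_conj]
    exact mul_le_mul_of_nonneg_right hx.le (norm_nonneg _)
  · have hw : 0 < ‖w‖ := norm_pos_iff.2 h
    have h1 : HasFDerivAt (fun w : ℂ => ‖w‖) (fderiv ℝ (fun w : ℂ => ‖w‖) w) w :=
      ((contDiffAt_norm ℝ h (n := 1)).differentiableAt (by norm_num)).hasFDerivAt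
    have hL : ‖fderiv ℝ (fun w : ℂ => ‖w‖) w‖ ≤ 1 := by
      have := norm_fderiv_le_of_lipschitz ℝ (x₀ := w) (lipschitzWith_one_norm (E := ℂ))
      simpa using this
    have h2 := h1.rpow_const (p := p - 2) (Or.inl hw.ne')
    have h3 : HasFDerivAt (fun w : ℂ => conj w) (conjCLE : ℂ →L[ℝ] ℂ) w := conjCLE.hasFDerivAt
    have h4 := h2.smul h3
    refine ⟨_, h4, ?_⟩
    refine (norm_add_le _ _).trans ?_
    have a1 : ‖(‖w‖ ^ (p - 2)) • (conjCLE : ℂ →L[ℝ] ℂ)‖ ≤ ‖w‖ ^ (p - 2) := by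
      rw [norm_smul, Real.norm_of_nonneg (Real.rpow_nonneg hw.le _)]
      have : ‖(conjCLE : ℂ →L[ℝ] ℂ)‖ ≤ 1 :=
        ContinuousLinearMap.opNorm_le_bound _ (by norm_num) fun x => by simp
      have := mul_le_mul_of_nonneg_left this (Real.rpow_nonneg hw.le (p - 2))
      rwa [mul_one] at this
    have a2 : ‖(((p - 2) * ‖w‖ ^ (p - 2 - 1)) • fderiv ℝ (fun w : ℂ => ‖w‖) w).smulRight
        (conj w)‖ ≤ (p - 2) * ‖w‖ ^ (p - 2) := by
      rw [ContinuousLinearMap.norm_smulRight_apply, norm_smul, Complex.norm_conj,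
        Real.norm_of_nonneg (mul_nonneg (by linarith) (Real.rpow_nonneg hw.le _))]
      have e1 : ‖w‖ ^ (p - 2) = ‖w‖ ^ (p - 2 - 1) * ‖w‖ := by
        rw [← Real.rpow_add_one hw.ne']; congr 1; ring
      rw [e1]
      have := mul_le_mul_of_nonneg_left hL (mul_nonneg (by linarith : (0:ℝ) ≤ p - 2)
        (Real.rpow_nonneg hw.le (p - 2 - 1)))
      have := mul_le_mul_of_nonneg_right this hw.le
      linarith
    linarith

theorem amgm {lam : ℝ} (hl : 0 < lam) (x y : ℝ≥0∞) :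
    x * y ≤ ENNReal.ofReal lam * x ^ 2 + ENNReal.ofReal lam⁻¹ * y ^ 2 := by
  rcases le_total y (ENNReal.ofReal lam * x) with h | h
  · calc x * y ≤ x * (ENNReal.ofReal lam * x) := by gcongr
      _ = ENNReal.ofReal lam * x ^ 2 := by ring
      _ ≤ _ := le_self_add
  · have h1 : x ≤ ENNReal.ofReal lam⁻¹ * y := by
      calc x = ENNReal.ofReal lam⁻¹ * (ENNReal.ofReal lam * x) := by
            rw [← mul_assoc, ← ENNReal.ofReal_mul (by positivity), inv_mul_cancel₀ hl.ne',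
              ENNReal.ofReal_one, one_mul]
        _ ≤ _ := by gcongr
    calc x * y ≤ (ENNReal.ofReal lam⁻¹ * y) * y := by gcongr
      _ = ENNReal.ofReal lam⁻¹ * y ^ 2 := by ring
      _ ≤ _ := le_add_self

theorem measurable_hj (n : ℕ) (j : ℤ) {f : ℂ → ℂ} (hf : Nice f) : Measurable (hj n j f) := by
  unfold hj
  have hg : Nice (gj n j f) := P.FL.nice_gj n j hf
  have h1 : Continuous (gamN ((2:ℝ) ^ (-j))) := by
    unfold gamN
    refine continuous_const.mul (Continuous.inv₀ (by fun_prop) fun z => ?_)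
    positivity
  refine Measurable.lintegral_prod_right' (f := fun q : ℂ × ℂ =>
    ENNReal.ofReal (gamN ((2:ℝ) ^ (-j)) (q.1 - q.2)) * ‖gj n j f q.2‖ₑ ^ 2) ?_
  refine (ENNReal.measurable_ofReal.comp (h1.measurable.comp
    (measurable_fst.sub measurable_snd))).mul ?_
  exact ((hg.meas.comp measurable_snd).enorm).pow_const 2

/-- one term -/
theorem cross_one {p : ℝ} (hp : 2 < p) {a : ℂ → ℂ} (ha : Nice a) (hda : Differentiable ℝ a)
    {D : ℝ} (hD : ∀ z, ‖fderiv ℝ a z‖ ≤ D) {X : ℂ → ℂ} (hX : Nice X) (hdX : Differentiable ℝ X)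
    (hiX : Integrable (fderiv ℝ X)) {v : ℂ} (hv : ‖v‖ = 1) :
    Integrable (fun z => Ph p (a z) * fderiv ℝ X z v) ∧
    ‖∫ z, Ph p (a z) * fderiv ℝ X z v‖ₑ ≤ ∫⁻ z, ENNReal.ofReal (p - 1) * ‖a z‖ₑ ^ (p - 2) *
      (‖fderiv ℝ a z‖ₑ * ‖X z‖ₑ) := by
  obtain ⟨A, hA⟩ := ha.bdd
  have A0 : 0 ≤ A := (norm_nonneg _).trans (hA 0)
  have D0 : 0 ≤ D := (norm_nonneg _).trans (hD 0)
  have hPc : Continuous (Ph p) := by
    rw [continuous_iff_continuousAt]
    intro w
    obtain ⟨L, hL, -⟩ := Ph_deriv hp w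
    exact hL.continuousAt
  have hPm : Measurable fun z => Ph p (a z) := hPc.measurable.comp ha.meas
  have hPb : ∀ z, ‖Ph p (a z)‖ ≤ A ^ (p - 1) := fun z => by
    rw [Ph_norm hp]
    exact Real.rpow_le_rpow (norm_nonneg _) (hA z) (by linarith)
  have hdP : ∀ z, DifferentiableAt ℝ (fun z => Ph p (a z)) z ∧
      ‖fderiv ℝ (fun z => Ph p (a z)) z v‖ ≤ (p - 1) * ‖a z‖ ^ (p - 2) * ‖fderiv ℝ a z‖ := by
    intro z
    obtain ⟨L, hL, hLn⟩ := Ph_deriv hp (a z)
    have h1 := hL.comp z (hda z).hasFDerivAt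
    refine ⟨h1.differentiableAt, ?_⟩
    have h2 : fderiv ℝ (fun z => Ph p (a z)) z = L.comp (fderiv ℝ a z) := h1.fderiv
    rw [h2, ContinuousLinearMap.comp_apply]
    calc ‖L (fderiv ℝ a z v)‖ ≤ ‖L‖ * ‖fderiv ℝ a z v‖ := L.le_opNorm _
      _ ≤ ((p - 1) * ‖a z‖ ^ (p - 2)) * ‖fderiv ℝ a z‖ := by
          refine mul_le_mul hLn ?_ (norm_nonneg _) ?_
          · have := (fderiv ℝ a z).le_opNorm v
            rwa [hv, mul_one] at this
          · have := Real.rpow_nonneg (norm_nonneg (a z)) (p - 2)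
            nlinarith
      _ = _ := by ring
  have hmd : Measurable fun z => fderiv ℝ (fun z => Ph p (a z)) z v :=
    measurable_fderiv_apply_const ℝ _ v
  have hbd : ∀ z, ‖fderiv ℝ (fun z => Ph p (a z)) z v‖ ≤ (p - 1) * A ^ (p - 2) * D := by
    intro z
    refine (hdP z).2.trans ?_
    have h1 := Real.rpow_le_rpow (norm_nonneg _) (hA z) (by linarith : 0 ≤ p - 2)
    have h2 := Real.rpow_nonneg (norm_nonneg (a z)) (p - 2)
    have h3 := Real.rpow_nonneg A0 (p - 2)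
    refine mul_le_mul (mul_le_mul_of_nonneg_left h1 (by linarith)) (hD z) (norm_nonneg _) ?_
    exact mul_nonneg (by linarith) h3
  have i1 : Integrable (fun z => fderiv ℝ (fun z => Ph p (a z)) z v * X z) :=
    hX.int.bdd_mul hmd.aestronglyMeasurable (ae_of_all _ hbd)
  have iXv : Integrable (fun z => fderiv ℝ X z v) :=
    (ContinuousLinearMap.apply ℝ ℂ v).integrable_comp hiX
  have i2 : Integrable (fun z => Ph p (a z) * fderiv ℝ X z v) :=
    iXv.bdd_mul hPm.aestronglyMeasurable (ae_of_all _ hPb)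
  have i3 : Integrable (fun z => Ph p (a z) * X z) :=
    hX.int.bdd_mul hPm.aestronglyMeasurable (ae_of_all _ hPb)
  refine ⟨i2, ?_⟩
  rw [integral_mul_fderiv_eq_neg_fderiv_mul_of_integrable i1 i2 i3 (fun z _ => (hdP z).1)
    (fun z _ => hdX z), enorm_neg]
  refine (enorm_integral_le_lintegral_enorm _).trans (lintegral_mono fun z => ?_)
  simp only [enorm_mul]
  rw [← mul_assoc]
  refine mul_le_mul' ?_ le_rfl
  rw [← ofReal_norm, ← ofReal_norm (fderiv ℝ a z), ← ofReal_norm (a z),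
    ENNReal.ofReal_rpow_of_nonneg (norm_nonneg _) (by linarith),
    ← ENNReal.ofReal_mul (by linarith), ← ENNReal.ofReal_mul (by
      have := Real.rpow_nonneg (norm_nonneg (a z)) (p - 2)
      nlinarith)]
  exact ENNReal.ofReal_le_ofReal (hdP z).2

end Helper72.BB.P.R4x

namespace Helper72.BB.P

open Helper72.BA Helper72.BB R4x

theorem cross (p : ℝ) (hp : 2 < p) : ∃ C : ℝ, 0 < C ∧ ∀ (n : ℕ) (U W : Finset ℤ) (f : ℂ → ℂ), Nice f →
    ENNReal.ofReal |∫ z, ‖gW n U f z‖ ^ (p - 2) * (conj (gW n U f z) * gW n W f z).re| ≤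
      ENNReal.ofReal C * ∑ i ∈ U, ∑ j ∈ W, ENNReal.ofReal ((2:ℝ) ^ (i - j)) *
        ∫⁻ z, ‖gW n U f z‖ₑ ^ (p - 2) * (hj n i f z + hj n j f z) := by
  obtain ⟨C, hC, hmaj⟩ := majorants
  refine ⟨2 * ((p - 1) * C), by nlinarith, fun n U W f hf => ?_⟩
  have ha : Nice (gW n U f) := P.FL.nice_gW n U hf
  set a := gW n U f with had
  have hda : ∀ z, HasFDerivAt a (∑ i ∈ U, fderiv ℝ (gj n i f) z) z := by
    intro z
    have := HasFDerivAt.fun_sum (u := U) (A := fun i => gj n i f)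
      (A' := fun i => fderiv ℝ (gj n i f) z) (x := z)
      (fun i _ => ((hmaj n i f hf).2.1 z).hasFDerivAt)
    exact this
  have hdn : ∀ z, ‖fderiv ℝ a z‖ₑ ≤ ∑ i ∈ U, ‖fderiv ℝ (gj n i f) z‖ₑ := by
    intro z
    rw [(hda z).fderiv]
    exact enorm_sum_le _ _
  obtain ⟨D, hD⟩ : ∃ D : ℝ, ∀ z, ‖fderiv ℝ a z‖ ≤ D := by
    choose D hD using fun i => (hmaj n i f hf).2.2.2.2.1
    refine ⟨∑ i ∈ U, D i, fun z => ?_⟩
    rw [(hda z).fderiv]
    exact (norm_sum_le _ _).trans (Finset.sum_le_sum fun i _ => hD i z)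
  have hPc : Continuous (Ph p) := by
    rw [continuous_iff_continuousAt]
    intro w
    obtain ⟨L, hL, -⟩ := Ph_deriv hp w
    exact hL.continuousAt
  have hPm : Measurable fun z => Ph p (a z) := hPc.measurable.comp ha.meas
  obtain ⟨A, hA⟩ := ha.bdd
  have hPb : ∀ z, ‖Ph p (a z)‖ ≤ A ^ (p - 1) := fun z => by
    rw [Ph_norm hp]
    exact Real.rpow_le_rpow (norm_nonneg _) (hA z) (by linarith)
  have igj : ∀ j, Integrable (fun z => Ph p (a z) * gj n j f z) := fun j =>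
    (P.FL.nice_gj n j hf).int.bdd_mul hPm.aestronglyMeasurable (ae_of_all _ hPb)
  -- one annulus
  have one : ∀ j, ‖∫ z, Ph p (a z) * gj n j f z‖ₑ ≤ ENNReal.ofReal (2 * ((p - 1) * C)) *
      ∑ i ∈ U, ENNReal.ofReal ((2:ℝ) ^ (i - j)) *
        ∫⁻ z, ‖a z‖ₑ ^ (p - 2) * (hj n i f z + hj n j f z) := by
    intro j
    obtain ⟨-, -, -, -, -, X1, X2, nX1, nX2, dX1, dX2, iX1, iX2, -, b1, b2, hdiv⟩ := hmaj n j f hf
    obtain ⟨j1, c1⟩ := cross_one hp ha (fun z => (hda z).differentiableAt) hD nX1 dX1 iX1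
      (v := 1) (by simp)
    obtain ⟨j2, c2⟩ := cross_one hp ha (fun z => (hda z).differentiableAt) hD nX2 dX2 iX2
      (v := I) (by simp)
    have e1 : ∫ z, Ph p (a z) * gj n j f z = (∫ z, Ph p (a z) * fderiv ℝ X1 z 1)
        + ∫ z, Ph p (a z) * fderiv ℝ X2 z I := by
      rw [← integral_add j1 j2]
      refine integral_congr_ae (ae_of_all _ fun z => ?_)
      simp only
      rw [← hdiv z, mul_add]
    have key : ∀ X : ℂ → ℂ, (∀ z, ‖X z‖ₑ ^ 2 ≤ ENNReal.ofReal (C * (2:ℝ) ^ (-(2 * j))) * hj n j f z) →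
        ∫⁻ z, ENNReal.ofReal (p - 1) * ‖a z‖ₑ ^ (p - 2) * (‖fderiv ℝ a z‖ₑ * ‖X z‖ₑ)
        ≤ ENNReal.ofReal ((p - 1) * C) * ∑ i ∈ U, ENNReal.ofReal ((2:ℝ) ^ (i - j)) *
        ∫⁻ z, ‖a z‖ₑ ^ (p - 2) * (hj n i f z + hj n j f z) := by
      intro X hX
      have pt : ∀ z i, ‖fderiv ℝ (gj n i f) z‖ₑ * ‖X z‖ₑ ≤
          ENNReal.ofReal C * (ENNReal.ofReal ((2:ℝ) ^ (i - j)) * (hj n i f z + hj n j f z)) := by
        intro z i
        have h1 := (hmaj n i f hf).2.2.1 z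
        have h2 := hX z
        have h3 := amgm (lam := (2:ℝ) ^ (-(i + j))) (by positivity) ‖fderiv ℝ (gj n i f) z‖ₑ ‖X z‖ₑ
        refine h3.trans ?_
        have e2 : (2:ℝ) ^ (-(i + j)) * (C * (2:ℝ) ^ (2 * i)) = C * (2:ℝ) ^ (i - j) := by
          have : (2:ℝ) ^ (i - j) = (2:ℝ) ^ (-(i + j)) * (2:ℝ) ^ (2 * i) := by
            rw [← zpow_add₀ two_ne_zero]; congr 1; ring
          rw [this]; ring
        have e3 : ((2:ℝ) ^ (-(i + j)))⁻¹ * (C * (2:ℝ) ^ (-(2 * j))) = C * (2:ℝ) ^ (i - j) := by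
          have : (2:ℝ) ^ (i - j) = ((2:ℝ) ^ (-(i + j)))⁻¹ * (2:ℝ) ^ (-(2 * j)) := by
            rw [← zpow_neg, ← zpow_add₀ two_ne_zero]; congr 1; ring
          rw [this]; ring
        calc _ ≤ ENNReal.ofReal ((2:ℝ) ^ (-(i + j))) * (ENNReal.ofReal (C * (2:ℝ) ^ (2 * i)) * hj n i f z)
              + ENNReal.ofReal ((2:ℝ) ^ (-(i + j)))⁻¹ *
                (ENNReal.ofReal (C * (2:ℝ) ^ (-(2 * j))) * hj n j f z) :=
              add_le_add (mul_le_mul' le_rfl h1) (mul_le_mul' le_rfl h2)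
          _ = _ := by
              rw [← mul_assoc, ← mul_assoc, ← ENNReal.ofReal_mul (by positivity),
                ← ENNReal.ofReal_mul (by positivity), e2, e3, ENNReal.ofReal_mul hC.le]
              ring
      calc _ ≤ ∫⁻ z, ∑ i ∈ U, ENNReal.ofReal ((p - 1) * C) * (ENNReal.ofReal ((2:ℝ) ^ (i - j)) *
            (‖a z‖ₑ ^ (p - 2) * (hj n i f z + hj n j f z))) := by
            refine lintegral_mono fun z => ?_
            calc ENNReal.ofReal (p - 1) * ‖a z‖ₑ ^ (p - 2) * (‖fderiv ℝ a z‖ₑ * ‖X z‖ₑ)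
                ≤ ENNReal.ofReal (p - 1) * ‖a z‖ₑ ^ (p - 2) *
                  ((∑ i ∈ U, ‖fderiv ℝ (gj n i f) z‖ₑ) * ‖X z‖ₑ) := by
                  refine mul_le_mul' le_rfl (mul_le_mul' (hdn z) le_rfl)
              _ = ∑ i ∈ U, ENNReal.ofReal (p - 1) * ‖a z‖ₑ ^ (p - 2) *
                  (‖fderiv ℝ (gj n i f) z‖ₑ * ‖X z‖ₑ) := by
                  rw [Finset.sum_mul, Finset.mul_sum]
              _ ≤ ∑ i ∈ U, ENNReal.ofReal (p - 1) * ‖a z‖ₑ ^ (p - 2) *
                  (ENNReal.ofReal C * (ENNReal.ofReal ((2:ℝ) ^ (i - j)) *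
                    (hj n i f z + hj n j f z))) :=
                  Finset.sum_le_sum fun i _ => mul_le_mul' le_rfl (pt z i)
              _ = _ := by
                  refine Finset.sum_congr rfl fun i _ => ?_
                  rw [ENNReal.ofReal_mul (by linarith)]
                  ring
        _ = _ := by
            have hm : ∀ i, Measurable fun z => ‖a z‖ₑ ^ (p - 2) * (hj n i f z + hj n j f z) :=
              fun i => (ha.meas.enorm.pow_const _).mul
                ((measurable_hj n i hf).add (measurable_hj n j hf))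
            rw [lintegral_finsetSum _ (fun i _ => ((hm i).const_mul _).const_mul _), Finset.mul_sum]
            refine Finset.sum_congr rfl fun i _ => ?_
            rw [lintegral_const_mul _ ((hm i).const_mul _), lintegral_const_mul _ (hm i)]
    rw [e1]
    refine (enorm_add_le _ _).trans ((add_le_add (c1.trans (key X1 b1)) (c2.trans (key X2 b2))).trans
      (le_of_eq ?_))
    rw [ENNReal.ofReal_mul (by norm_num : (0:ℝ) ≤ 2)]
    have : ENNReal.ofReal 2 = 2 := by norm_num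
    rw [this]
    ring
  have hint : Integrable (fun z => Ph p (a z) * gW n W f z) :=
    (P.FL.nice_gW n W hf).int.bdd_mul hPm.aestronglyMeasurable (ae_of_all _ hPb)
  have e1 : ∫ z, ‖a z‖ ^ (p - 2) * (conj (a z) * gW n W f z).re
      = (∫ z, Ph p (a z) * gW n W f z).re := by
    have h1 := (Complex.reCLM).integral_comp_comm hint
    rw [Complex.reCLM_apply] at h1
    rw [← h1]
    refine integral_congr_ae (ae_of_all _ fun z => ?_)
    simp only [Complex.reCLM_apply]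
    unfold Ph
    rw [smul_mul_assoc, Complex.smul_re, smul_eq_mul]
  have e2 : ∫ z, Ph p (a z) * gW n W f z = ∑ j ∈ W, ∫ z, Ph p (a z) * gj n j f z := by
    rw [← integral_finsetSum _ (fun j _ => igj j)]
    refine integral_congr_ae (ae_of_all _ fun z => ?_)
    simp only [gW]
    rw [Finset.mul_sum]
  rw [e1]
  have e3 : ENNReal.ofReal |(∫ z, Ph p (a z) * gW n W f z).re|
      ≤ ‖∫ z, Ph p (a z) * gW n W f z‖ₑ := by
    rw [← ofReal_norm]
    exact ENNReal.ofReal_le_ofReal (Complex.abs_re_le_norm _)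
  refine e3.trans ?_
  rw [e2]
  refine (enorm_sum_le _ _).trans ?_
  refine (Finset.sum_le_sum fun j _ => one j).trans (le_of_eq ?_)
  rw [← Finset.mul_sum, Finset.sum_comm]

end Helper72.BB.P
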