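import Mathlib

/-!
Counting lemmas for the deletion method.
-/

namespace Pool.Agent.Helper61

open Finset

/-- The number of maps `ω` with prescribed values at `j` distinct places. -/
lemma card_constraint {P V : Type*} [Fintype P] [DecidableEq P] [Fintype V] [DecidableEq V]
    {j : ℕ} (p : Fin j → P) (hp : Function.Injective p) (q : Fin j → V) :
    (univ.filter (fun ω : P → V => ∀ t, ω (p t) = q t)).card * Fintype.card V ^ j
      = Fintype.card V ^ Fintype.card P := by
  classical
  have h1 : univ.filter (fun ω : P → V => ∀ t, ω (p t) = q t)
      = Fintype.piFinset (fun x => if h : ∃ t, p t = x then {q h.choose} else univ) := by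
    ext ω
    simp only [mem_filter, mem_univ, true_and, Fintype.mem_piFinset]
    constructor
    · intro h x
      by_cases hx : ∃ t, p t = x
      · rw [dif_pos hx, mem_singleton, ← h, hx.choose_spec]
      · rw [dif_neg hx]; exact mem_univ _
    · intro h t
      have := h (p t)
      have hx : ∃ t', p t' = p t := ⟨t, rfl⟩
      rw [dif_pos hx, mem_singleton] at this
      rw [this, hp hx.choose_spec]
  rw [h1, Fintype.card_piFinset]
  have h2 : ∀ x, ((if h : ∃ t, p t = x then ({q h.choose} : Finset V) else univ) : Finset V).card
      = if x ∈ (univ.image p) then 1 else Fintype.card V := by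
    intro x
    by_cases hx : ∃ t, p t = x
    · rw [dif_pos hx, if_pos (by simpa using hx), card_singleton]
    · rw [dif_neg hx, if_neg (by simpa using hx), card_univ]
  rw [Finset.prod_congr rfl (fun x _ => h2 x), Finset.prod_ite, prod_const_one, one_mul,
    prod_const]
  have h3 : (univ.filter (fun x => x ∉ univ.image p)).card + j = Fintype.card P := by
    have h4 : (univ.filter (fun x => x ∈ univ.image p)).card = j := by
      have : univ.filter (fun x => x ∈ univ.image p) = univ.image p := by
        ext x; simp
      rw [this, card_image_of_injective _ hp, card_univ, Fintype.card_fin]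
    have h5 := card_filter_add_card_filter_not (s := (univ : Finset P)) (fun x => x ∈ univ.image p)
    rw [card_univ] at h5
    omega
  rw [← pow_add, h3]

/-- The number of maps avoiding a set `A` on a set `E` of places. -/
lemma card_avoid {P V : Type*} [Fintype P] [DecidableEq P] [Fintype V] [DecidableEq V]
    (E : Finset P) (A : Finset V) :
    (univ.filter (fun ω : P → V => ∀ x ∈ E, ω x ∉ A)).card
      = (Fintype.card V - A.card) ^ E.card * Fintype.card V ^ (Fintype.card P - E.card) := by
  classical
  have h1 : univ.filter (fun ω : P → V => ∀ x ∈ E, ω x ∉ A)
      = Fintype.piFinset (fun x => if x ∈ E then Aᶜ else univ) := by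
    ext ω
    simp only [mem_filter, mem_univ, true_and, Fintype.mem_piFinset]
    constructor
    · intro h x
      by_cases hx : x ∈ E
      · rw [if_pos hx]; simpa using h x hx
      · rw [if_neg hx]; exact mem_univ _
    · intro h x hx
      have := h x
      rw [if_pos hx] at this
      simpa using this
  rw [h1, Fintype.card_piFinset]
  have h2 : ∀ x, ((if x ∈ E then Aᶜ else univ) : Finset V).card
      = if x ∈ E then Fintype.card V - A.card else Fintype.card V := by
    intro x
    by_cases hx : x ∈ E
    · rw [if_pos hx, if_pos hx, card_compl]
    · rw [if_neg hx, if_neg hx, card_univ]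
  rw [Finset.prod_congr rfl (fun x _ => h2 x), Finset.prod_ite, prod_const, prod_const]
  congr 2
  · congr 1; ext x; simp
  · have h5 := card_filter_add_card_filter_not (s := (univ : Finset P)) (fun x => x ∈ E)
    rw [card_univ] at h5
    have h6 : univ.filter (fun x => x ∈ E) = E := by ext x; simp
    rw [h6] at h5
    omega

end Pool.Agent.Helper61
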