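import Mathlib
import Pool.Agent.Helper61.ErdosCount

/-!
Finite graphs with large girth and large chromatic number (Erdos 1959), by counting.
-/

namespace Pool.Agent.Helper61

open Finset

/-- Cyclic successor. -/
def nxt {j : ℕ} (t : Fin j) : Fin j := ⟨(t.1 + 1) % j, Nat.mod_lt _ (by have := t.2; omega)⟩

/-- Data of a closed tuple of length `j`. -/
abbrev Tup (m n j : ℕ) := (Fin j → Fin n) × (Fin j → Fin m) × (Fin j → Bool)

/-- The place queried at step `t`. -/
def tpos {m n j : ℕ} (τ : Tup m n j) (t : Fin j) : Fin m × Fin n :=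
  (τ.2.1 t, if τ.2.2 t = true then τ.1 t else τ.1 (nxt t))

/-- The value required at step `t`. -/
def tval {m n j : ℕ} (τ : Tup m n j) (t : Fin j) : Fin n :=
  if τ.2.2 t = true then τ.1 (nxt t) else τ.1 t

/-- The closed tuple is realized by `ω`, with distinct places. -/
def Cl {m n j : ℕ} (ω : Fin m × Fin n → Fin n) (τ : Tup m n j) : Prop :=
  Function.Injective (tpos τ) ∧ ∀ t, ω (tpos τ t) = tval τ t

open Classical in
/-- Places lying on a short closed tuple. -/
noncomputable def Bad {m n : ℕ} (g : ℕ) (ω : Fin m × Fin n → Fin n) : Finset (Fin m × Fin n) :=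
  univ.filter (fun p => ∃ j, j ≤ g ∧ ∃ τ : Tup m n j, Cl ω τ ∧ ∃ t, tpos τ t = p)

/-- The graph given by the places outside `B`. -/
def gr {m n : ℕ} (ω : Fin m × Fin n → Fin n) (B : Finset (Fin m × Fin n)) :
    SimpleGraph (Fin n) where
  Adj x y := x ≠ y ∧ ∃ i, (ω (i, x) = y ∧ (i, x) ∉ B) ∨ (ω (i, y) = x ∧ (i, y) ∉ B)
  symm := ⟨by
    rintro x y ⟨hxy, i, h⟩
    exact ⟨hxy.symm, i, h.symm⟩⟩
  loopless := ⟨by
    rintro x ⟨h, _⟩
    exact h rfl⟩

lemma girth_gr {m n : ℕ} (g : ℕ) (ω : Fin m × Fin n → Fin n) :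
    (g : ℕ∞) < (gr ω (Bad g ω)).egirth := by
  classical
  have key : ∀ (a : Fin n) (w : (gr ω (Bad g ω)).Walk a a), w.IsCycle → g + 1 ≤ w.length := by
    intro a w hw
    by_contra hlt
    have hle : w.length ≤ g := by omega
    have hlen : 3 ≤ w.length := hw.three_le_length
    have hadj : ∀ t : Fin w.length, ∃ (i : Fin m) (s : Bool),
        (s = true → ω (i, w.getVert t) = w.getVert (t + 1) ∧ (i, w.getVert t) ∉ Bad g ω) ∧
        (s = false → ω (i, w.getVert (t + 1)) = w.getVert t ∧ (i, w.getVert (t + 1)) ∉ Bad g ω) := by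
      intro t
      have h := w.adj_getVert_succ t.2
      obtain ⟨_, i, h1 | h1⟩ := h
      · exact ⟨i, true, fun _ => h1, fun h => by simp at h⟩
      · exact ⟨i, false, fun h => by simp at h, fun _ => h1⟩
    choose i s h1 h2 using hadj
    set τ : Tup m n w.length := (fun t => w.getVert t, i, s) with hτ
    have hnxt : ∀ t : Fin w.length, w.getVert (nxt t) = w.getVert (t + 1) := by
      intro t
      simp only [nxt]
      by_cases ht : t.1 + 1 < w.length
      · rw [Nat.mod_eq_of_lt ht]
      · have : t.1 + 1 = w.length := by have := t.2; omega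
        rw [this, Nat.mod_self, w.getVert_length, w.getVert_zero]
    have hpos : ∀ t, tpos τ t = (i t, if s t = true then w.getVert t else w.getVert (t + 1)) := by
      intro t
      simp only [tpos, hτ, hnxt]
    have hval : ∀ t, tval τ t = if s t = true then w.getVert (t + 1) else w.getVert t := by
      intro t
      simp only [tval, hτ, hnxt]
    have hom : ∀ t, ω (tpos τ t) = tval τ t := by
      intro t
      rw [hpos, hval]
      cases hs : s t
      · simpa using (h2 t hs).1
      · simpa using (h1 t hs).1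
    have hnb : ∀ t, tpos τ t ∉ Bad g ω := by
      intro t
      rw [hpos]
      cases hs : s t
      · simpa using (h2 t hs).2
      · simpa using (h1 t hs).2
    have hedge : ∀ t : Fin w.length, s((tpos τ t).2, ω (tpos τ t))
        = w.edges[t.1]'(by rw [w.length_edges]; exact t.2) := by
      intro t
      rw [hom, hval, hpos, SimpleGraph.Walk.getElem_edges]
      cases hs : s t
      · simp [Sym2.eq_swap]
      · simp
    have hinj : Function.Injective (tpos τ) := by
      intro t t' htt
      have h3 : w.edges[t.1]'(by rw [w.length_edges]; exact t.2)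
          = w.edges[t'.1]'(by rw [w.length_edges]; exact t'.2) := by
        rw [← hedge, ← hedge, htt]
      have hnd : w.edges.Nodup := hw.isCircuit.isTrail.edges_nodup
      exact Fin.ext ((List.Nodup.getElem_inj_iff hnd).1 h3)
    have h0 : 0 < w.length := by omega
    apply hnb ⟨0, h0⟩
    simp only [Bad, mem_filter, mem_univ, true_and]
    exact ⟨w.length, hle, τ, ⟨hinj, hom⟩, ⟨0, h0⟩, rfl⟩
  have : ((g + 1 : ℕ) : ℕ∞) ≤ (gr ω (Bad g ω)).egirth := by
    rw [SimpleGraph.le_egirth]
    intro a w hw
    exact_mod_cast key a w hw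
  refine lt_of_lt_of_le ?_ this
  exact_mod_cast Nat.lt_succ_self g

open Classical in
/-- The expected number of realized closed tuples of length `j`. -/
lemma sum_card_Cl {m n : ℕ} (hn : 0 < n) (j : ℕ) :
    ∑ ω : Fin m × Fin n → Fin n, (univ.filter (fun τ : Tup m n j => Cl ω τ)).card
      ≤ (2 * m) ^ j * n ^ (m * n) := by
  have h1 : ∑ ω : Fin m × Fin n → Fin n, (univ.filter (fun τ : Tup m n j => Cl ω τ)).card
      = ∑ τ : Tup m n j, (univ.filter (fun ω : Fin m × Fin n → Fin n => Cl ω τ)).card := by
    simp only [card_filter]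
    rw [sum_comm]
  rw [h1]
  have h2 : ∀ τ : Tup m n j,
      (univ.filter (fun ω : Fin m × Fin n → Fin n => Cl ω τ)).card * n ^ j ≤ n ^ (m * n) := by
    intro τ
    by_cases hinj : Function.Injective (tpos τ)
    · have h3 := card_constraint (tpos τ) hinj (tval τ)
      simp only [Fintype.card_fin, Fintype.card_prod] at h3
      rw [← h3]
      apply Nat.mul_le_mul_right
      apply card_le_card
      intro ω h
      rw [mem_filter] at h ⊢
      exact ⟨mem_univ _, h.2.2⟩
    · have : univ.filter (fun ω : Fin m × Fin n → Fin n => Cl ω τ) = ∅ := by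
        apply filter_eq_empty_iff.2
        intro ω _ h
        exact hinj h.1
      rw [this]
      simp
  have h3 : (∑ τ : Tup m n j, (univ.filter (fun ω : Fin m × Fin n → Fin n => Cl ω τ)).card)
      * n ^ j ≤ ((2 * m) ^ j * n ^ (m * n)) * n ^ j := by
    rw [sum_mul]
    refine (sum_le_sum (fun τ _ => h2 τ)).trans ?_
    rw [sum_const, card_univ, smul_eq_mul]
    have : Fintype.card (Tup m n j) = (2 * m) ^ j * n ^ j := by
      simp only [Fintype.card_prod, Fintype.card_fun, Fintype.card_fin, Fintype.card_bool]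
      rw [mul_pow]; ring
    rw [this]
    apply le_of_eq
    ring
  exact Nat.le_of_mul_le_mul_right h3 (pow_pos hn j)

/-- The expected number of bad places. -/
lemma sum_card_Bad {m n : ℕ} (hn : 0 < n) (g : ℕ) :
    ∑ ω : Fin m × Fin n → Fin n, (Bad g ω).card
      ≤ (∑ j ∈ range (g + 1), j * (2 * m) ^ j) * n ^ (m * n) := by
  classical
  have h1 : ∀ ω : Fin m × Fin n → Fin n, (Bad g ω).card
      ≤ ∑ j ∈ range (g + 1), j * (univ.filter (fun τ : Tup m n j => Cl ω τ)).card := by
    intro ω
    have hsub : Bad g ω ⊆ (range (g + 1)).biUnion (fun j =>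
        (univ.filter (fun τ : Tup m n j => Cl ω τ)).biUnion (fun τ => univ.image (tpos τ))) := by
      intro p hp
      simp only [Bad, mem_filter, mem_univ, true_and] at hp
      obtain ⟨j, hj, τ, hτ, t, ht⟩ := hp
      simp only [mem_biUnion, mem_range, mem_filter, mem_univ, true_and, mem_image]
      exact ⟨j, by omega, τ, hτ, t, ht⟩
    refine (card_le_card hsub).trans (card_biUnion_le.trans (sum_le_sum fun j _ => ?_))
    refine card_biUnion_le.trans ?_
    refine (sum_le_card_nsmul _ _ j ?_).trans ?_
    · intro τ _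
      exact card_image_le.trans (by simp)
    · rw [smul_eq_mul, mul_comm]
  refine (sum_le_sum fun ω _ => h1 ω).trans ?_
  rw [sum_comm, sum_mul]
  refine sum_le_sum fun j _ => ?_
  rw [← mul_sum, mul_assoc]
  exact Nat.mul_le_mul_left _ (sum_card_Cl hn j)

/-- Few maps have many bad places. -/
lemma card_manyBad {m n : ℕ} (hn : 0 < n) (g K : ℕ)
    (hK : ∑ j ∈ range (g + 1), j * (2 * m) ^ j ≤ K) :
    2 * (univ.filter (fun ω : Fin m × Fin n → Fin n => 2 * K < (Bad g ω).card)).card
      < n ^ (m * n) := by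
  classical
  set S := univ.filter (fun ω : Fin m × Fin n → Fin n => 2 * K < (Bad g ω).card) with hS
  have h1 : S.card * (2 * K + 1) ≤ K * n ^ (m * n) := by
    calc S.card * (2 * K + 1) ≤ ∑ ω ∈ S, (Bad g ω).card := by
          rw [← smul_eq_mul]
          apply card_nsmul_le_sum
          intro ω hω
          have : 2 * K < (Bad g ω).card := by
            simpa [hS] using hω
          omega
      _ ≤ ∑ ω : Fin m × Fin n → Fin n, (Bad g ω).card :=
          sum_le_sum_of_subset (subset_univ _)
      _ ≤ (∑ j ∈ range (g + 1), j * (2 * m) ^ j) * n ^ (m * n) := sum_card_Bad hn g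
      _ ≤ K * n ^ (m * n) := Nat.mul_le_mul_right _ hK
  have hN : 0 < n ^ (m * n) := pow_pos hn _
  by_contra hcon
  push Not at hcon
  have h2 : (2 * S.card) * (2 * K + 1) ≥ n ^ (m * n) * (2 * K + 1) :=
    Nat.mul_le_mul_right _ hcon
  nlinarith

end Pool.Agent.Helper61
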