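import Mathlib
import Pool.Agent.Helper61.ErdosGraph

/-!
Finite graphs with large girth and large chromatic number (Erdos 1959), by counting.
-/

namespace Pool.Agent.Helper61

open Finset Filter

lemma pow_split_le (x y e0 e N : ℕ) (h0 : e0 ≤ e) (h1 : e ≤ N) (hxy : x ≤ y) :
    x ^ e * y ^ (N - e) ≤ x ^ e0 * y ^ (N - e0) := by
  have h2 : x ^ e = x ^ e0 * x ^ (e - e0) := by rw [← pow_add]; congr 1; omega
  have h3 : y ^ (N - e0) = y ^ (e - e0) * y ^ (N - e) := by rw [← pow_add]; congr 1; omega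
  rw [h2, h3, mul_assoc]
  exact Nat.mul_le_mul_left _ (Nat.mul_le_mul_right _ (Nat.pow_le_pow_left hxy _))

/-- Union bound over the colour classes and the exceptional places. -/
lemma card_viol (m n a t : ℕ) :
    (univ.filter (fun ω : Fin m × Fin n → Fin n =>
      ∃ A ∈ powersetCard a (univ : Finset (Fin n)), ∃ δ : Fin t → Fin m × Fin n,
        ∀ p ∈ ((univ : Finset (Fin m)) ×ˢ A) \ univ.image δ, ω p ∉ A)).card
      ≤ 2 ^ n * ((m * n) ^ t * ((n - a) ^ (m * a - t) * n ^ (m * n - (m * a - t)))) := by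
  classical
  have hsub : (univ.filter (fun ω : Fin m × Fin n → Fin n =>
      ∃ A ∈ powersetCard a (univ : Finset (Fin n)), ∃ δ : Fin t → Fin m × Fin n,
        ∀ p ∈ ((univ : Finset (Fin m)) ×ˢ A) \ univ.image δ, ω p ∉ A))
      ⊆ (powersetCard a (univ : Finset (Fin n))).biUnion (fun A =>
        (univ : Finset (Fin t → Fin m × Fin n)).biUnion (fun δ =>
          univ.filter (fun ω : Fin m × Fin n → Fin n =>
            ∀ p ∈ ((univ : Finset (Fin m)) ×ˢ A) \ univ.image δ, ω p ∉ A))) := by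
    intro ω hω
    rw [mem_filter] at hω
    obtain ⟨_, A, hA, δ, h⟩ := hω
    rw [mem_biUnion]
    refine ⟨A, hA, ?_⟩
    rw [mem_biUnion]
    refine ⟨δ, mem_univ _, ?_⟩
    rw [mem_filter]
    exact ⟨mem_univ _, h⟩
  refine (card_le_card hsub).trans ?_
  refine (card_biUnion_le_card_mul _ _
    ((m * n) ^ t * ((n - a) ^ (m * a - t) * n ^ (m * n - (m * a - t)))) ?_).trans ?_
  · intro A hA
    rw [mem_powersetCard] at hA
    have hAn : a ≤ n := by
      have := card_le_univ A
      rw [Fintype.card_fin] at this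
      omega
    refine (card_biUnion_le_card_mul _ _
      ((n - a) ^ (m * a - t) * n ^ (m * n - (m * a - t))) ?_).trans ?_
    · intro δ _
      rw [card_avoid]
      simp only [Fintype.card_fin, Fintype.card_prod]
      rw [hA.2]
      apply pow_split_le
      · have h1 : ((univ : Finset (Fin m)) ×ˢ A).card = m * a := by
          rw [card_product, hA.2, card_univ, Fintype.card_fin]
        have h2 : (univ.image δ).card ≤ t := card_image_le.trans (by simp)
        have h3 := le_card_sdiff (univ.image δ) ((univ : Finset (Fin m)) ×ˢ A)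
        omega
      · have := card_le_univ (((univ : Finset (Fin m)) ×ˢ A) \ univ.image δ)
        simpa using this
      · omega
    · apply Nat.mul_le_mul_right
      simp
  · apply Nat.mul_le_mul_right
    rw [card_powersetCard, card_univ, Fintype.card_fin]
    exact Nat.choose_le_two_pow n a

/-- Choice of the size of the graph. -/
lemma exists_size (c m t : ℕ) (hc : 2 ≤ c) (hm : (((c : ℝ) - 1) / c) ^ m ≤ (1 / 2) ^ (c + 1)) :
    ∃ a, 1 ≤ a ∧ t ≤ m * a ∧
      2 * (2 ^ (c * a) * ((m * (c * a)) ^ t * (c * a - a) ^ (m * a - t)))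
        ≤ (c * a) ^ (m * a - t) := by
  have hm1 : 1 ≤ m := by
    by_contra h
    have : m = 0 := by omega
    subst this
    rw [pow_zero] at hm
    have h2 : ((1 : ℝ) / 2) ^ (c + 1) ≤ (1 / 2) ^ 1 :=
      pow_le_pow_of_le_one (by norm_num) (by norm_num) (by omega)
    norm_num at h2
    norm_num at hm
    linarith
  have hlim := tendsto_pow_const_div_const_pow_of_one_lt t (r := (2 : ℝ)) (by norm_num)
  set M : ℝ := 2 ^ (t + 1) * ((m : ℝ) * c) ^ t with hM
  have hMpos : 0 < M := by
    have : (0 : ℝ) < m := by exact_mod_cast hm1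
    have : (0 : ℝ) < c := by exact_mod_cast (by omega : 0 < c)
    positivity
  have hev : ∀ᶠ n : ℕ in atTop, ((n : ℝ) ^ t / 2 ^ n) < 1 / M :=
    hlim.eventually_lt_const (by positivity)
  obtain ⟨a, ha1, ha2⟩ := (hev.and (eventually_ge_atTop (t + 1))).exists
  refine ⟨a, by omega, ?_, ?_⟩
  · calc t ≤ 1 * a := by omega
      _ ≤ m * a := Nat.mul_le_mul_right _ hm1
  · have hta : t ≤ m * a := by
      calc t ≤ 1 * a := by omega
        _ ≤ m * a := Nat.mul_le_mul_right _ hm1
    have hc0 : (0 : ℝ) < c := by exact_mod_cast (by omega : 0 < c)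
    have ha0 : (0 : ℝ) < a := by exact_mod_cast (by omega : 0 < a)
    set r : ℝ := ((c : ℝ) - 1) / c with hr
    have hr2 : 1 / 2 ≤ r := by
      rw [hr, div_le_div_iff₀ (by norm_num) hc0]
      have : (2 : ℝ) ≤ c := by exact_mod_cast hc
      linarith
    set e := m * a - t with he
    have hsub : ((c * a - a : ℕ) : ℝ) = r * (c * a) := by
      have h1 : c * a - a = (c - 1) * a := by
        rw [Nat.sub_mul, one_mul]
      rw [h1, Nat.cast_mul, Nat.cast_sub (by omega), hr]
      field_simp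
      simp
    have key : (2 : ℝ) * (2 ^ (c * a) * (((m : ℝ) * (c * a)) ^ t * r ^ e)) ≤ 1 := by
      have hre : r ^ e ≤ (1 / 2) ^ ((c + 1) * a) * 2 ^ t := by
        have h1 : r ^ e * r ^ t = (r ^ m) ^ a := by
          rw [← pow_add, ← pow_mul]; congr 1; omega
        have h2 : (r ^ m) ^ a ≤ (1 / 2) ^ ((c + 1) * a) := by
          rw [pow_mul]
          exact pow_le_pow_left₀ (by positivity) hm _
        have h3 : (1 / 2 : ℝ) ^ t ≤ r ^ t := pow_le_pow_left₀ (by norm_num) hr2 _
        have h4 : r ^ e * (1 / 2) ^ t ≤ (1 / 2) ^ ((c + 1) * a) := by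
          calc r ^ e * (1 / 2) ^ t ≤ r ^ e * r ^ t :=
                mul_le_mul_of_nonneg_left h3 (by positivity)
            _ ≤ _ := by rw [h1]; exact h2
        have h5 : (1 / 2 : ℝ) ^ t * 2 ^ t = 1 := by
          rw [← mul_pow]; norm_num
        calc r ^ e = r ^ e * ((1 / 2 : ℝ) ^ t * 2 ^ t) := by rw [h5, mul_one]
          _ = (r ^ e * (1 / 2) ^ t) * 2 ^ t := by ring
          _ ≤ _ := mul_le_mul_of_nonneg_right h4 (by positivity)
      calc (2 : ℝ) * (2 ^ (c * a) * (((m : ℝ) * (c * a)) ^ t * r ^ e))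
          ≤ (2 : ℝ) * (2 ^ (c * a) * (((m : ℝ) * (c * a)) ^ t *
              ((1 / 2) ^ ((c + 1) * a) * 2 ^ t))) := by gcongr
        _ = M * ((a : ℝ) ^ t / 2 ^ a) := by
            have h6 : (1 / 2 : ℝ) ^ ((c + 1) * a) = 1 / (2 ^ (c * a) * 2 ^ a) := by
              rw [add_mul, one_mul, pow_add, div_pow, div_pow, one_pow, one_pow]
              field_simp
            rw [h6, hM]
            rw [show (m : ℝ) * (c * a) = (m * c) * a by ring, mul_pow ((m : ℝ) * c) a t]
            field_simp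
            ring
        _ ≤ M * (1 / M) := by gcongr
        _ = 1 := by field_simp
    have hfin : ((2 * (2 ^ (c * a) * ((m * (c * a)) ^ t * (c * a - a) ^ e)) : ℕ) : ℝ)
        ≤ (((c * a) ^ e : ℕ) : ℝ) := by
      push_cast [hsub]
      have h7 : (2 : ℝ) * (2 ^ (c * a) * (((m : ℝ) * (c * a)) ^ t * (r * (c * a)) ^ e))
          = (2 : ℝ) * (2 ^ (c * a) * (((m : ℝ) * (c * a)) ^ t * r ^ e)) * ((c : ℝ) * a) ^ e := by
        rw [mul_pow r]; ring
      have h8 : ((c * a - a : ℕ) : ℝ) = r * (c * a) := hsub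
      rw [h7]
      calc _ ≤ 1 * ((c : ℝ) * a) ^ e := mul_le_mul_of_nonneg_right key (by positivity)
        _ = _ := by rw [one_mul]
    exact_mod_cast hfin

/-- Erdos (1959): finite graphs with girth larger than `g` that are not `c`-colourable. -/
theorem exists_girth_chromatic (c g : ℕ) :
    ∃ (n : ℕ) (G : SimpleGraph (Fin n)), (g : ℕ∞) < G.egirth ∧ ¬ G.Colorable c := by
  classical
  suffices h : ∀ c g : ℕ, 2 ≤ c → 1 ≤ g →
      ∃ (n : ℕ) (G : SimpleGraph (Fin n)), (g : ℕ∞) < G.egirth ∧ ¬ G.Colorable c by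
    obtain ⟨n, G, h1, h2⟩ := h (c + 2) (g + 1) (by omega) (by omega)
    refine ⟨n, G, lt_of_le_of_lt ?_ h1, fun h3 => h2 (h3.mono (by omega))⟩
    exact_mod_cast Nat.le_succ g
  clear c g
  intro c g hc hg
  have hc0 : (0 : ℝ) < c := by exact_mod_cast (by omega : 0 < c)
  obtain ⟨m, hm⟩ : ∃ m : ℕ, (((c : ℝ) - 1) / c) ^ m < (1 / 2) ^ (c + 1) := by
    apply exists_pow_lt_of_lt_one (by positivity)
    rw [div_lt_one hc0]
    linarith
  set K := ∑ j ∈ range (g + 1), j * (2 * m) ^ j with hK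
  obtain ⟨a, ha1, ha2, ha3⟩ := exists_size c m (2 * K) hc hm.le
  set n := c * a with hn
  have hn0 : 0 < n := Nat.mul_pos (by omega) (by omega)
  have hB := card_manyBad (m := m) hn0 g K le_rfl
  have hV := card_viol m n a (2 * K)
  have hV2 : 2 * (univ.filter (fun ω : Fin m × Fin n → Fin n =>
      ∃ A ∈ powersetCard a (univ : Finset (Fin n)), ∃ δ : Fin (2 * K) → Fin m × Fin n,
        ∀ p ∈ ((univ : Finset (Fin m)) ×ˢ A) \ univ.image δ, ω p ∉ A)).card ≤ n ^ (m * n) := by
    calc _ ≤ 2 * (2 ^ n * ((m * n) ^ (2 * K) * ((n - a) ^ (m * a - 2 * K)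
          * n ^ (m * n - (m * a - 2 * K))))) := Nat.mul_le_mul_left _ hV
      _ = (2 * (2 ^ n * ((m * n) ^ (2 * K) * (n - a) ^ (m * a - 2 * K))))
          * n ^ (m * n - (m * a - 2 * K)) := by ring
      _ ≤ n ^ (m * a - 2 * K) * n ^ (m * n - (m * a - 2 * K)) := Nat.mul_le_mul_right _ ha3
      _ = n ^ (m * n) := by
          rw [← pow_add]
          congr 1
          have : a ≤ n := by
            rw [hn]; exact Nat.le_mul_of_pos_left _ (by omega)
          have : m * a ≤ m * n := Nat.mul_le_mul_left _ this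
          omega
  -- a good map exists
  obtain ⟨ω, hω1, hω2⟩ : ∃ ω : Fin m × Fin n → Fin n, ¬ (2 * K < (Bad g ω).card) ∧
      ¬ (∃ A ∈ powersetCard a (univ : Finset (Fin n)), ∃ δ : Fin (2 * K) → Fin m × Fin n,
        ∀ p ∈ ((univ : Finset (Fin m)) ×ˢ A) \ univ.image δ, ω p ∉ A) := by
    by_contra hcon
    push Not at hcon
    have hall : (univ : Finset (Fin m × Fin n → Fin n)) ⊆
        univ.filter (fun ω : Fin m × Fin n → Fin n => 2 * K < (Bad g ω).card) ∪
        (univ.filter (fun ω : Fin m × Fin n → Fin n =>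
      ∃ A ∈ powersetCard a (univ : Finset (Fin n)), ∃ δ : Fin (2 * K) → Fin m × Fin n,
        ∀ p ∈ ((univ : Finset (Fin m)) ×ˢ A) \ univ.image δ, ω p ∉ A)) := by
      intro ω _
      rw [mem_union, mem_filter, mem_filter]
      by_cases h : 2 * K < (Bad g ω).card
      · exact Or.inl ⟨mem_univ _, h⟩
      · refine Or.inr ⟨mem_univ _, ?_⟩
        exact hcon ω (by omega)
    have h1 := (card_le_card hall).trans (card_union_le _ _)
    have h2 : (univ : Finset (Fin m × Fin n → Fin n)).card = n ^ (m * n) := by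
      simp
    rw [h2] at h1
    omega
  refine ⟨n, gr ω (Bad g ω), girth_gr g ω, ?_⟩
  rintro ⟨C⟩
  -- a colour class of size at least a
  have : Nonempty (Fin c) := ⟨⟨0, by omega⟩⟩
  obtain ⟨y, hy⟩ := Fintype.exists_le_card_fiber_of_mul_le_card (fun x : Fin n => C x) (n := a)
    (by simp [hn])
  obtain ⟨A, hA1, hA2⟩ := exists_subset_card_eq hy
  -- enumerate the bad places
  have hmn : Nonempty (Fin m × Fin n) := by
    by_contra h
    rw [not_nonempty_iff] at h
    apply hω2
    refine ⟨A, ?_, ?_⟩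
    · rw [mem_powersetCard]; exact ⟨subset_univ _, hA2⟩
    · have hK0 : K = 0 := by
        rcases Nat.eq_zero_or_pos m with hm0 | hm0
        · rw [hK, hm0]
          apply sum_eq_zero
          intro j _
          rcases Nat.eq_zero_or_pos j with hj | hj
          · simp [hj]
          · simp [Nat.pos_iff_ne_zero.1 hj]
        · exfalso
          exact h.false (⟨0, hm0⟩, ⟨0, hn0⟩)
      rw [hK0]
      exact ⟨fun i => absurd i.2 (by simp), fun p _ => (h.false p).elim⟩
  obtain ⟨δ, hδ⟩ : ∃ δ : Fin (2 * K) → Fin m × Fin n, Bad g ω ⊆ univ.image δ := by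
    have hcard : (Bad g ω).card ≤ 2 * K := by omega
    obtain ⟨p0⟩ := hmn
    refine ⟨fun i => if h : i.1 < (Bad g ω).card then
      ((Bad g ω).equivFin.symm ⟨i.1, h⟩).1 else p0, ?_⟩
    intro p hp
    rw [mem_image]
    set k := (Bad g ω).equivFin ⟨p, hp⟩ with hk
    refine ⟨⟨k.1, by have := k.2; omega⟩, mem_univ _, ?_⟩
    rw [dif_pos k.2]
    simp [hk]
  apply hω2
  refine ⟨A, ?_, δ, ?_⟩
  · rw [mem_powersetCard]; exact ⟨subset_univ _, hA2⟩
  · rintro ⟨i, x⟩ hp hin
    have hp := Finset.mem_sdiff.1 hp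
    rw [mem_product] at hp
    have hnb : (i, x) ∉ Bad g ω := fun h => hp.2 (hδ h)
    have hx : C x = y := by
      have := hA1 hp.1.2
      simpa using this
    have hy' : C (ω (i, x)) = y := by
      have := hA1 hin
      simpa using this
    have hne : x ≠ ω (i, x) := by
      intro heq
      apply hnb
      simp only [Bad, mem_filter, mem_univ, true_and]
      refine ⟨1, hg, (fun _ => x, fun _ => i, fun _ => true), ⟨?_, ?_⟩, 0, ?_⟩
      · intro s t _; exact Subsingleton.elim _ _
      · intro t; simp [tpos, tval, ← heq]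
      · simp [tpos]
    have hadj : (gr ω (Bad g ω)).Adj x (ω (i, x)) := ⟨hne, i, Or.inl ⟨rfl, hnb⟩⟩
    exact C.valid hadj (hx.trans hy'.symm)

end Pool.Agent.Helper61
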