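import Mathlib

/-!
The Banach space `Lip(M)` of real Lipschitz functions vanishing at a base point, and almost square
normed spaces.
-/

namespace Pool.Agent.Helper61

open scoped NNReal

/-- The vector space of Lipschitz functions `f : M → ℝ` with `f o = 0`. -/
def lipSubmodule (M : Type*) [MetricSpace M] (o : M) : Submodule ℝ (M → ℝ) where
  carrier := {f | (∃ K : ℝ≥0, LipschitzWith K f) ∧ f o = 0}
  add_mem' := by
    rintro f g ⟨⟨K, hK⟩, hf⟩ ⟨⟨L, hL⟩, hg⟩
    exact ⟨⟨K + L, hK.add hL⟩, by simp [hf, hg]⟩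
  zero_mem' := ⟨⟨0, LipschitzWith.const 0⟩, rfl⟩
  smul_mem' := by
    rintro c f ⟨⟨K, hK⟩, hf⟩
    refine ⟨⟨‖c‖₊ * K, ?_⟩, by simp [hf]⟩
    apply LipschitzWith.of_dist_le_mul
    intro x y
    simp only [Pi.smul_apply, dist_smul₀, NNReal.coe_mul, coe_nnnorm, mul_assoc]
    exact mul_le_mul_of_nonneg_left (hK.dist_le_mul x y) (norm_nonneg c)

/-- `Lip(M)`: Lipschitz functions `M → ℝ` vanishing at the base point `o`. -/
def Lip (M : Type*) [MetricSpace M] (o : M) : Type _ := lipSubmodule M o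

variable {M : Type*} [MetricSpace M] {o : M}

noncomputable instance : AddCommGroup (Lip M o) := inferInstanceAs (AddCommGroup (lipSubmodule M o))
noncomputable instance : Module ℝ (Lip M o) := inferInstanceAs (Module ℝ (lipSubmodule M o))

/-- The underlying function. -/
def Lip.fn (f : Lip M o) : M → ℝ := f.1

/-- The norm is the best Lipschitz constant `sup |f x - f y| / d(x,y)`
(terms with `x = y` are `0 / 0 = 0`). -/
noncomputable instance : Norm (Lip M o) :=
  ⟨fun f => ⨆ p : M × M, |f.fn p.1 - f.fn p.2| / dist p.1 p.2⟩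

lemma Lip.fn_add (f g : Lip M o) (x : M) : (f + g).fn x = f.fn x + g.fn x := rfl

lemma Lip.fn_sub (f g : Lip M o) (x : M) : (f - g).fn x = f.fn x - g.fn x := rfl

lemma Lip.fn_smul (c : ℝ) (f : Lip M o) (x : M) : (c • f).fn x = c * f.fn x := rfl

lemma Lip.fn_zero (x : M) : (0 : Lip M o).fn x = 0 := rfl

lemma Lip.fn_base (f : Lip M o) : f.fn o = 0 := f.2.2

lemma Lip.norm_def (f : Lip M o) :
    ‖f‖ = ⨆ p : M × M, |f.fn p.1 - f.fn p.2| / dist p.1 p.2 := rfl

lemma Lip.bddAbove (f : Lip M o) :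
    BddAbove (Set.range fun p : M × M => |f.fn p.1 - f.fn p.2| / dist p.1 p.2) := by
  obtain ⟨K, hK⟩ := f.2.1
  refine ⟨K, ?_⟩
  rintro _ ⟨p, rfl⟩
  have h := hK.dist_le_mul p.1 p.2
  rw [Real.dist_eq] at h
  exact div_le_of_le_mul₀ dist_nonneg K.2 h

lemma Lip.le_norm (f : Lip M o) (x y : M) : |f.fn x - f.fn y| ≤ ‖f‖ * dist x y := by
  rcases eq_or_ne x y with rfl | hxy
  · simp
  · have h := le_ciSup f.bddAbove (x, y)
    have hd : 0 < dist x y := dist_pos.2 hxy
    rw [← Lip.norm_def] at h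
    rwa [div_le_iff₀ hd] at h

lemma Lip.norm_le (f : Lip M o) {C : ℝ} (hC : 0 ≤ C)
    (h : ∀ x y, |f.fn x - f.fn y| ≤ C * dist x y) : ‖f‖ ≤ C := by
  rw [Lip.norm_def]
  have : Nonempty (M × M) := ⟨(o, o)⟩
  apply ciSup_le
  intro p
  exact div_le_of_le_mul₀ dist_nonneg hC (h p.1 p.2)

lemma Lip.norm_nonneg' (f : Lip M o) : 0 ≤ ‖f‖ := by
  have h := le_ciSup f.bddAbove (o, o)
  rw [← Lip.norm_def] at h
  refine le_trans ?_ h
  positivity

lemma Lip.ext' {f g : Lip M o} (h : ∀ x, f.fn x = g.fn x) : f = g :=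
  Subtype.ext (funext h)

lemma Lip.core : NormedSpace.Core ℝ (Lip M o) where
  norm_nonneg := Lip.norm_nonneg'
  norm_smul := by
    intro c f
    simp only [Lip.norm_def, Lip.fn_smul]
    rw [Real.norm_eq_abs, Real.mul_iSup_of_nonneg (abs_nonneg c)]
    congr 1
    ext p
    rw [← mul_sub, abs_mul, mul_div_assoc]
  norm_triangle := by
    intro f g
    apply Lip.norm_le _ (add_nonneg f.norm_nonneg' g.norm_nonneg')
    intro x y
    rw [Lip.fn_add, Lip.fn_add, add_mul]
    have h1 := f.le_norm x y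
    have h2 := g.le_norm x y
    calc |f.fn x + g.fn x - (f.fn y + g.fn y)|
        = |(f.fn x - f.fn y) + (g.fn x - g.fn y)| := by ring_nf
      _ ≤ |f.fn x - f.fn y| + |g.fn x - g.fn y| := abs_add_le _ _
      _ ≤ _ := add_le_add h1 h2
  norm_eq_zero_iff := by
    intro f
    constructor
    · intro h
      apply Lip.ext'
      intro x
      have h1 := f.le_norm x o
      rw [h, zero_mul, f.fn_base, sub_zero] at h1
      rw [Lip.fn_zero]
      exact abs_eq_zero.1 (le_antisymm h1 (abs_nonneg _))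
    · rintro rfl
      apply le_antisymm
      · apply Lip.norm_le _ le_rfl
        intro x y
        simp [Lip.fn_zero]
      · exact Lip.norm_nonneg' _

noncomputable instance : NormedAddCommGroup (Lip M o) := NormedAddCommGroup.ofCore Lip.core
noncomputable instance : NormedSpace ℝ (Lip M o) := NormedSpace.ofCore Lip.core

/-- A real normed space is almost square (ASQ) if for every finite family of norm-one vectors
`x i` and every `ε > 0` there is a norm-one vector `y` with `‖x i ± y‖ ≤ 1 + ε` for all `i`. -/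
def IsASQ (X : Type*) [NormedAddCommGroup X] [NormedSpace ℝ X] : Prop :=
  ∀ (k : ℕ) (x : Fin k → X), (∀ i, ‖x i‖ = 1) → ∀ ε : ℝ, 0 < ε →
    ∃ y : X, ‖y‖ = 1 ∧ ∀ i, ‖x i + y‖ ≤ 1 + ε ∧ ‖x i - y‖ ≤ 1 + ε

end Pool.Agent.Helper61
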