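import Mathlib
import Pool.Agent.Helper61.Erdos

/-!
Capped graph metrics, bump functions along an edge.
-/

namespace Pool.Agent.Helper61

section Cap

variable {V : Type*} (G : SimpleGraph V) (C : ℕ)

open Classical in
/-- Graph distance capped at `C`. -/
noncomputable def capDist (x y : V) : ℕ :=
  if G.Reachable x y then min (G.dist x y) C else C

lemma capDist_self (x : V) : capDist G C x x = 0 := by
  simp [capDist]

lemma capDist_comm (x y : V) : capDist G C x y = capDist G C y x := by
  unfold capDist
  by_cases h : G.Reachable x y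
  · rw [if_pos h, if_pos h.symm, G.dist_comm]
  · rw [if_neg h, if_neg (fun h2 => h h2.symm)]

lemma capDist_le (x y : V) : capDist G C x y ≤ C := by
  unfold capDist
  split_ifs
  · exact min_le_right _ _
  · exact le_rfl

lemma capDist_triangle (x y z : V) :
    capDist G C x z ≤ capDist G C x y + capDist G C y z := by
  by_cases h1 : G.Reachable x y
  · by_cases h2 : G.Reachable y z
    · have h3 : G.Reachable x z := h1.trans h2
      have h4 := h1.dist_triangle_left z
      simp only [capDist, if_pos h1, if_pos h2, if_pos h3]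
      omega
    · have := capDist_le G C x z
      have h5 : capDist G C y z = C := by simp only [capDist, if_neg h2]
      omega
  · have := capDist_le G C x z
    have h5 : capDist G C x y = C := by simp only [capDist, if_neg h1]
    omega

lemma capDist_pos (hC : 1 ≤ C) {x y : V} (hxy : x ≠ y) : 1 ≤ capDist G C x y := by
  unfold capDist
  split_ifs with h
  · have := h.pos_dist_of_ne hxy
    exact le_min this hC
  · exact hC

lemma capDist_adj_le {x y : V} (h : G.Adj x y) : capDist G C x y ≤ 1 := by
  unfold capDist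
  rw [if_pos h.reachable]
  refine (min_le_left _ _).trans ?_
  rw [SimpleGraph.dist_eq_one_iff_adj.2 h]

variable {G C}

/-- Edgewise bounds give bounds for the capped metric. -/
lemma edgewise {ε : ℝ} {f g : V → ℝ}
    (hf : ∀ x y, |f x - f y| ≤ capDist G C x y)
    (hedge : ∀ x y, G.Adj x y → |f x - f y| + |g x - g y| ≤ 1 + ε)
    (hg : ∀ x, 0 ≤ g x ∧ g x ≤ 1) (hC : 1 ≤ ε * C) (x y : V) :
    |f x - f y| + |g x - g y| ≤ (1 + ε) * capDist G C x y := by
  have hwalk : ∀ (a b : V) (w : G.Walk a b),
      |f a - f b| + |g a - g b| ≤ (1 + ε) * w.length := by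
    intro a b w
    induction w with
    | nil => simp
    | @cons a b c h p ih =>
      rw [SimpleGraph.Walk.length_cons, Nat.cast_add, Nat.cast_one, mul_add, mul_one]
      have h1 := hedge _ _ h
      have h2 : |f a - f c| ≤ |f a - f b| + |f b - f c| := abs_sub_le _ _ _
      have h3 : |g a - g c| ≤ |g a - g b| + |g b - g c| := abs_sub_le _ _ _
      linarith
  by_cases hr : G.Reachable x y ∧ G.dist x y ≤ C
  · obtain ⟨w, hw⟩ := hr.1.exists_walk_length_eq_dist
    have h1 : capDist G C x y = G.dist x y := by
      rw [capDist, if_pos hr.1, min_eq_left hr.2]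
    rw [h1, ← hw]
    exact hwalk x y w
  · have h1 : capDist G C x y = C := by
      unfold capDist
      split_ifs with h
      · have : ¬ G.dist x y ≤ C := fun h2 => hr ⟨h, h2⟩
        omega
      · rfl
    have h2 := hf x y
    rw [h1] at h2 ⊢
    have h3 : |g x - g y| ≤ 1 := by
      rw [abs_le]
      constructor <;> linarith [(hg x).1, (hg x).2, (hg y).1, (hg y).2]
    rw [add_mul, one_mul]
    linarith

end Cap

section Bump

variable {V : Type*} (H : SimpleGraph V) (u : V) (ε : ℝ)

open Classical in
/-- The bump `max 0 (1 - ε d_H(x,u))`, zero outside the component of `u`. -/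
noncomputable def bump (x : V) : ℝ :=
  if H.Reachable x u then max 0 (1 - ε * H.dist x u) else 0

lemma bump_self : bump H u ε u = 1 := by
  simp [bump]

lemma bump_nonneg (x : V) : 0 ≤ bump H u ε x := by
  unfold bump
  split_ifs
  · exact le_max_left _ _
  · exact le_rfl

lemma bump_le_one (hε : 0 ≤ ε) (x : V) : bump H u ε x ≤ 1 := by
  unfold bump
  split_ifs
  · apply max_le zero_le_one
    have : 0 ≤ ε * (H.dist x u : ℝ) := by positivity
    linarith
  · exact zero_le_one

lemma bump_adj (hε : 0 ≤ ε) {x y : V} (h : H.Adj x y) :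
    |bump H u ε x - bump H u ε y| ≤ ε := by
  by_cases hx : H.Reachable x u
  · have hy : H.Reachable y u := h.symm.reachable.trans hx
    have h1 : H.dist y u ≤ H.dist x u + 1 := by
      have := h.symm.reachable.dist_triangle_left u
      rw [SimpleGraph.dist_eq_one_iff_adj.2 h.symm] at this
      omega
    have h2 : H.dist x u ≤ H.dist y u + 1 := by
      have := h.reachable.dist_triangle_left u
      rw [SimpleGraph.dist_eq_one_iff_adj.2 h] at this
      omega
    simp only [bump, if_pos hx, if_pos hy]
    have h1' : (H.dist y u : ℝ) ≤ H.dist x u + 1 := by exact_mod_cast h1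
    have h2' : (H.dist x u : ℝ) ≤ H.dist y u + 1 := by exact_mod_cast h2
    have h3 : |max 0 (1 - ε * (H.dist x u : ℝ)) - max 0 (1 - ε * (H.dist y u : ℝ))|
        ≤ |(1 - ε * (H.dist x u : ℝ)) - (1 - ε * (H.dist y u : ℝ))| := by
      have := abs_max_sub_max_le_max (0 : ℝ) (1 - ε * (H.dist x u : ℝ)) 0
        (1 - ε * (H.dist y u : ℝ))
      simpa using this
    refine h3.trans ?_
    rw [abs_le]
    constructor <;> nlinarith
  · have hy : ¬ H.Reachable y u := fun h2 => hx (h.reachable.trans h2)
    simp only [bump, if_neg hx, if_neg hy]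
    simpa using hε

/-- Across a removed edge `uv` of a graph with large girth the bump at `u` vanishes at `v`. -/
lemma bump_removed {G : SimpleGraph V} {u v : V} (huv : G.Adj u v) {g : ℕ}
    (hg : (g : ℕ∞) < G.egirth) (h1 : 1 ≤ ε * g) :
    bump (G.deleteEdges {s(u, v)}) u ε v = 0 := by
  classical
  unfold bump
  split_ifs with h
  · set H := G.deleteEdges {s(u, v)} with hH
    obtain ⟨w, hw⟩ := h.exists_walk_length_eq_dist
    have hp : w.IsPath := SimpleGraph.Walk.isPath_of_length_eq_dist w hw
    have hle : H ≤ G := SimpleGraph.deleteEdges_le _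
    have hcyc : (SimpleGraph.Walk.cons huv (w.mapLe hle)).IsCycle := by
      rw [SimpleGraph.Walk.cons_isCycle_iff]
      constructor
      · exact (SimpleGraph.Walk.isPath_mapLe hle).2 hp
      · intro hmem
        rw [SimpleGraph.Walk.edges_mapLe_eq_edges] at hmem
        have := w.edges_subset_edgeSet hmem
        rw [hH, SimpleGraph.edgeSet_deleteEdges] at this
        exact this.2 rfl
    have h2 := SimpleGraph.egirth_le_length hcyc
    have h3 : (g : ℕ∞) < ((w.length + 1 : ℕ) : ℕ∞) := by
      refine lt_of_lt_of_le hg (h2.trans ?_)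
      simp
    have h4 : g < w.length + 1 := by exact_mod_cast h3
    have h5 : (g : ℝ) ≤ (H.dist v u : ℝ) := by
      rw [← hw]; exact_mod_cast (by omega : g ≤ w.length)
    have hε : 0 < ε := by
      by_contra hneg
      push Not at hneg
      have : ε * (g : ℝ) ≤ 0 := mul_nonpos_of_nonpos_of_nonneg hneg (by positivity)
      linarith
    apply max_eq_left
    nlinarith
  · rfl

end Bump

/-- Colouring by rounding: an edge on which all the functions are nearly constant. -/
lemma exists_flat_edge {V : Type*} (G : SimpleGraph V) {k K : ℕ} {ε : ℝ} (hε : 0 < ε)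
    (hK : 1 / ε + 1 < K) (hcol : ¬ G.Colorable (K ^ k)) (f : Fin k → V → ℝ)
    (hf : ∀ i x y, G.Adj x y → |f i x - f i y| ≤ 1) :
    ∃ u v, G.Adj u v ∧ ∀ i, |f i u - f i v| ≤ ε := by
  by_contra hcon
  push Not at hcon
  apply hcol
  have hKpos : 0 < K := by
    rcases Nat.eq_zero_or_pos K with h | h
    · rw [h] at hK
      have : 0 < 1 / ε := by positivity
      rw [Nat.cast_zero] at hK
      linarith
    · exact h
  have : NeZero K := ⟨hKpos.ne'⟩
  let C : V → (Fin k → ZMod K) := fun x i => ((⌊f i x / ε⌋ : ℤ) : ZMod K)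
  have hC : ∀ {x y : V}, G.Adj x y → C x ≠ C y := by
    intro x y hxy heq
    obtain ⟨i, hi⟩ := hcon x y hxy
    have h1 : ((⌊f i x / ε⌋ : ℤ) : ZMod K) = ((⌊f i y / ε⌋ : ℤ) : ZMod K) := congrFun heq i
    rw [ZMod.intCast_eq_intCast_iff_dvd_sub] at h1
    have h2 := hf i x y hxy
    rw [abs_le] at h2
    have h3 : |f i x / ε - f i y / ε| ≤ 1 / ε := by
      rw [← sub_div, abs_div, abs_of_pos hε]
      exact div_le_div_of_nonneg_right (hf i x y hxy) hε.le
    have h4 : |((⌊f i y / ε⌋ - ⌊f i x / ε⌋ : ℤ) : ℝ)| < K := by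
      push_cast
      have a1 := Int.floor_le (f i x / ε)
      have a2 := Int.lt_floor_add_one (f i x / ε)
      have b1 := Int.floor_le (f i y / ε)
      have b2 := Int.lt_floor_add_one (f i y / ε)
      rw [abs_le] at h3
      rw [abs_lt]
      constructor <;> linarith [h3.1, h3.2]
    have h5 : |(⌊f i y / ε⌋ - ⌊f i x / ε⌋ : ℤ)| < K := by exact_mod_cast h4
    have h6 : (⌊f i y / ε⌋ - ⌊f i x / ε⌋ : ℤ) = 0 := Int.eq_zero_of_abs_lt_dvd h1 h5
    have h7 : ⌊f i y / ε⌋ = ⌊f i x / ε⌋ := by omega
    have h8 : |f i x / ε - f i y / ε| < 1 := Int.abs_sub_lt_one_of_floor_eq_floor h7.symm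
    rw [← sub_div, abs_div, abs_of_pos hε, div_lt_one hε] at h8
    linarith
  have col : G.Coloring (Fin k → ZMod K) := SimpleGraph.Coloring.mk C hC
  have := col.colorable
  simpa [ZMod.card] using this

end Pool.Agent.Helper61
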